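import Pool.Agent.Lib.FW.SpecM

/-!
# The group of the cyclotomic extension of an abelian field (`S_FUa`)
-/

open scoped Pointwise

noncomputable section

namespace Pool.Agent.FW

open Pool.Agent.MuZ

namespace FUaAux

theorem mem_Cy_fix (m : ℕ) (ν : Gal(Om/ℚ)) (h : ν ∈ (Cy m).fixingSubgroup) :
    ∀ z : Om, z ^ m = 1 → ν z = z := by
  rw [IntermediateField.mem_fixingSubgroup_iff] at h
  exact fun z hz => h z (IntermediateField.subset_adjoin ℚ _ hz)

theorem fin_Cy {m : ℕ} (hm : 0 < m) : FiniteDimensional ℚ (Cy m) := by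
  classical
  have h1 : {z : Om | z ^ m = 1}.Finite := by
    refine ((Polynomial.nthRoots m (1 : Om)).toFinset.finite_toSet).subset ?_
    intro z hz
    rw [Finset.mem_coe, Multiset.mem_toFinset, Polynomial.mem_nthRoots hm]
    exact hz
  have := h1.to_subtype
  unfold Cy
  exact IntermediateField.finiteDimensional_adjoin
    (fun x _ => Algebra.IsIntegral.isIntegral (R := ℚ) x)

/-- An automorphism which fixes the `f`-th and the `p ^ n`-th roots of unity fixes the
`f p ^ n`-th ones. -/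
theorem fix_mul {p f n : ℕ} (h0 : f * p ^ n ≠ 0) (hc : f.Coprime (p ^ n)) (σ : Gal(Om/ℚ))
    (h1 : ∀ z : Om, z ^ f = 1 → σ z = z) (h2 : ∀ z : Om, z ^ p ^ n = 1 → σ z = z)
    (z : Om) (hz : z ^ (f * p ^ n) = 1) : σ z = z := by
  have hz0 : z ≠ 0 := by
    rintro rfl
    rw [zero_pow h0] at hz
    exact zero_ne_one hz
  have ha := h2 (z ^ f) (by rw [← pow_mul, hz])
  have hb := h1 (z ^ p ^ n) (by rw [← pow_mul, mul_comm, hz])
  have hbez : (1 : ℤ) = (f : ℤ) * f.gcdA (p ^ n) + ((p ^ n : ℕ) : ℤ) * f.gcdB (p ^ n) := by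
    rw [← Nat.gcd_eq_gcd_ab, Nat.Coprime.gcd_eq_one hc, Nat.cast_one]
  have h3 : z = (z ^ f) ^ f.gcdA (p ^ n) * (z ^ p ^ n) ^ f.gcdB (p ^ n) := by
    conv_lhs => rw [← zpow_one z, hbez, zpow_add₀ hz0, zpow_mul, zpow_mul, zpow_natCast,
      zpow_natCast]
  rw [h3, map_mul, map_zpow₀, map_zpow₀, ha, hb]

/-- The core: `σ` fixes the `p`-th roots of unity and `σ ^ w`, `w` prime to `p`, all `p`-power roots of
unity. -/
theorem fix_pow {p w : ℕ} (hp : p.Prime) (hw : w.Coprime p) (σ : Gal(Om/ℚ))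
    (h1 : ∀ z : Om, z ^ p = 1 → σ z = z)
    (h2 : ∀ (n : ℕ) (z : Om), z ^ p ^ n = 1 → (σ ^ w) z = z) :
    ∀ (n : ℕ) (z : Om), z ^ p ^ n = 1 → σ z = z := by
  intro n
  induction n with
  | zero =>
    intro z hz
    rw [pow_zero, pow_one] at hz
    rw [hz, map_one]
  | succ n ih =>
    intro z hz
    have hz0 : z ≠ 0 := by
      rintro rfl
      rw [zero_pow (pow_ne_zero _ hp.ne_zero)] at hz
      exact zero_ne_one hz
    have h3 : σ (z ^ p) = z ^ p := ih (z ^ p) (by rw [← pow_mul, ← pow_succ', hz])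
    obtain ⟨ω, hω⟩ : ∃ ω : Om, ω = σ z / z := ⟨_, rfl⟩
    have h4 : σ z = ω * z := by rw [hω, div_mul_cancel₀ _ hz0]
    have h5 : ω ^ p = 1 := by
      rw [hω, div_pow, ← map_pow, h3, div_self (pow_ne_zero _ hz0)]
    have h6 : σ ω = ω := h1 ω h5
    have h7 : ∀ j : ℕ, (σ ^ j) z = ω ^ j * z := by
      intro j
      induction j with
      | zero => simp
      | succ j ihj =>
        rw [pow_succ', AlgEquiv.mul_apply, ihj, map_mul, map_pow, h6, h4, pow_succ]
        ring
    have h8 : ω ^ w = 1 := by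
      have h9 := h7 w
      rw [h2 _ z hz] at h9
      have h10 : ω ^ w * z = 1 * z := by rw [← h9, one_mul]
      exact mul_right_cancel₀ hz0 h10
    have h9 : ω = 1 := by
      have h10 : ω ^ Nat.gcd w p = 1 := pow_gcd_eq_one.2 ⟨h8, h5⟩
      rwa [Nat.Coprime.gcd_eq_one hw, pow_one] at h10
    rw [h4, h9, one_mul]

end FUaAux

open FUaAux

theorem tFUa : S_FUa := by
  intro hT p _ hp2 k hk
  have hp : p.Prime := Fact.out
  obtain ⟨m, hm, hkm⟩ := hk
  obtain ⟨a, f, hf, hmf⟩ := Nat.exists_eq_pow_mul_and_not_dvd hm.ne' p hp.ne_one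
  have hf0 : 0 < f := by
    rcases Nat.eq_zero_or_pos f with h | h
    · exact absurd (by rw [h]; exact dvd_zero p) hf
    · exact h
  have hcop : ∀ n, f.Coprime (p ^ n) := fun n =>
    Nat.Coprime.pow_right n ((Nat.Prime.coprime_iff_not_dvd hp).2 hf).symm
  refine ⟨f, hf0, hf, ?_, ?_⟩
  · intro u hu
    unfold cyc
    rw [IntermediateField.fixingSubgroup_sup]
    constructor
    · apply hkm
      have h1 : ∀ z : Om, z ^ m = 1 → IsRt p f z := fun z hz => ⟨a, by rw [mul_comm, ← hmf, hz]⟩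
      exact fun z hz => hu z (h1 z hz)
    · change u ∈ (Qcyc p).fixingSubgroup
      rw [IntermediateField.mem_fixingSubgroup_iff]
      intro x hx
      refine hx u ⟨1, one_pos, ?_⟩
      rintro z ⟨n, hn⟩
      have h1 : IsRt p f z := ⟨n, by rw [mul_comm, pow_mul, hn, one_pow]⟩
      rw [pow_one]
      exact hu z h1
  · have hfin : FiniteDimensional ℚ (Cy (f * p)) := fin_Cy (Nat.mul_pos hf0 hp.pos)
    have hop : IsOpen ((Cy (f * p)).fixingSubgroup : Set Gal(Om/ℚ)) :=
      IntermediateField.fixingSubgroup_isOpen _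
    refine ⟨⟨(Cy (f * p)).fixingSubgroup, hop⟩, ?_⟩
    rintro σ ⟨h1, h2⟩
    have h3 : ∀ z : Om, z ^ (f * p) = 1 → σ z = z := mem_Cy_fix _ σ h2
    unfold cyc at h1
    have h1' : σ ∈ (k ⊔ Qcyc p).fixingSubgroup := h1
    rw [IntermediateField.fixingSubgroup_sup] at h1'
    have h4 := hT p hp σ h1'.2
    have h5 : ∀ (n : ℕ) (z : Om), z ^ p ^ n = 1 → σ z = z := by
      refine fix_pow (w := 2 * (p - 1)) hp ?_ σ ?_ (fun n z hz => h4 z ⟨n, hz⟩)
      · refine Nat.Coprime.mul_left ?_ ?_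
        · exact (Nat.coprime_primes Nat.prime_two hp).2 (Ne.symm hp2)
        · have h6 : p.Coprime (p - 1) := by
            rw [Nat.Prime.coprime_iff_not_dvd hp]
            intro h7
            have h8 := Nat.le_of_dvd (by have := hp.two_le; omega) h7
            have := hp.two_le
            omega
          exact h6.symm
      · intro z hz
        exact h3 z (by rw [mul_comm, pow_mul, hz, one_pow])
    rintro z ⟨n, hn⟩
    exact fix_mul (mul_ne_zero hf0.ne' (pow_ne_zero _ hp.ne_zero)) (hcop n) σ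
      (fun z hz => h3 z (by rw [pow_mul, hz, one_pow])) (h5 n) z hn

end Pool.Agent.FW
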