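import Pool.Agent.Lib.FW.SpecM

/-!
# FW, part M: Ferrero-Washington for all abelian fields (reduction)
-/

open scoped Pointwise

noncomputable section

namespace Pool.Agent.FW

open Pool.Agent.MuZ

theorem tFXa : S_FXa := by
  intro hFWM hFU hRes hBwd hSup p _ hp k _ hab
  obtain ⟨f, hf, hpf, hle, O, hO⟩ := hFU p hp k hab
  exact hBwd hSup p (cyc p k)
    (hRes Gal(Om/ℚ) p (Loc p) (MM p f) (cyc p k).fixingSubgroup O hle hO (hFWM p f hp hf hpf))

end Pool.Agent.FW
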