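import Pool.Agent.Lib.FW.SpecM

/-!
# FW, part M: finiteness of the characters of `M`
-/

open scoped Pointwise nonZeroDivisors

noncomputable section

namespace Pool.Agent.FW

open Pool.Agent.MuZ NumberField IsDedekindDomain

namespace MAsAux

theorem mm_conj (p f : ℕ) (σ τ : Gal(Om/ℚ)) (h : τ ∈ MM p f) : σ * τ * σ⁻¹ ∈ MM p f := by
  intro z hz
  rw [AlgEquiv.mul_apply, AlgEquiv.mul_apply, h _ (hz.map σ⁻¹), ← AlgEquiv.mul_apply,
    mul_inv_cancel, AlgEquiv.one_apply]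

theorem mm_conj_iff (p f : ℕ) (σ τ : Gal(Om/ℚ)) : σ * τ * σ⁻¹ ∈ MM p f ↔ τ ∈ MM p f := by
  refine ⟨fun h => ?_, mm_conj p f σ τ⟩
  have h1 := mm_conj p f σ⁻¹ _ h
  have h2 : σ⁻¹ * (σ * τ * σ⁻¹) * σ⁻¹⁻¹ = τ := by group
  rwa [h2] at h1

/-- The conjugate character. -/
def cjc {p : ℕ} (J : Gal(Om/ℚ)) (g : Gal(Om/ℚ) → ZMod p) : Gal(Om/ℚ) → ZMod p :=
  fun τ => g (J * τ * J⁻¹)

theorem cjc_mem (hc : S_Conj) (p f : ℕ) (J : Gal(Om/ℚ)) (g : Gal(Om/ℚ) → ZMod p)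
    (hg : g ∈ VV p (Loc p) (MM p f)) : cjc J g ∈ VV p (Loc p) (MM p f) := by
  obtain ⟨h1, h2, ⟨O, h3⟩, h4⟩ := hg
  refine ⟨fun τ hτ => h1 _ fun h => hτ ((mm_conj_iff p f J τ).1 h), fun τ hτ ρ hρ => ?_, ?_, ?_⟩
  · have e : J * (τ * ρ) * J⁻¹ = (J * τ * J⁻¹) * (J * ρ * J⁻¹) := by group
    change g (J * (τ * ρ) * J⁻¹) = g (J * τ * J⁻¹) + g (J * ρ * J⁻¹)
    rw [e]
    exact h2 _ (mm_conj p f J τ hτ) _ (mm_conj p f J ρ hρ)
  · have hcont : Continuous (MulAut.conj J : Gal(Om/ℚ) ≃* Gal(Om/ℚ)).toMonoidHom := by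
      change Continuous fun τ : Gal(Om/ℚ) => J * τ * J⁻¹
      exact (continuous_const.mul continuous_id).mul continuous_const
    refine ⟨O.comap _ hcont, fun τ hτ hO => h3 _ (mm_conj p f J τ hτ) ?_⟩
    exact hO
  · intro Λ hΛ τ hτ hM
    refine h4 (cj J Λ) (hc.1 p J Λ hΛ) _ ?_ (mm_conj p f J τ hM)
    exact ⟨τ, hτ, rfl⟩

theorem cjc_cjc {p : ℕ} (J : Gal(Om/ℚ)) (hJ : J * J = 1) (g : Gal(Om/ℚ) → ZMod p) :
    cjc J (cjc J g) = g := by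
  funext τ
  have e : J * (J * τ * J⁻¹) * J⁻¹ = τ := by
    have h1 : J⁻¹ = J := inv_eq_of_mul_eq_one_left hJ
    rw [h1]
    calc J * (J * τ * J) * J = (J * J) * τ * (J * J) := by group
      _ = τ := by rw [hJ, one_mul, mul_one]
  change g (J * (J * τ * J⁻¹) * J⁻¹) = g τ
  rw [e]

theorem cy_le (a b : ℕ) (h : a ∣ b) : Cy a ≤ Cy b := by
  refine IntermediateField.adjoin.mono _ _ _ ?_
  intro z hz
  obtain ⟨c, rfl⟩ := h
  change z ^ (a * c) = 1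
  rw [pow_mul, show z ^ a = 1 from hz, one_pow]

theorem gg_mono (p f n n' : ℕ) (h : n ≤ n') (J : Gal(Om/ℚ)) : GG' p f n J ⊆ GG' p f n' J := by
  rintro g ⟨h1, h2, h3⟩
  refine ⟨h1, h2, fun y hy => h3 y ?_⟩
  exact IntermediateField.fixingSubgroup_le
    (cy_le _ _ (mul_dvd_mul_left f (pow_dvd_pow p (Nat.succ_le_succ h)))) hy

/-- The odd characters. -/
def BB (p f : ℕ) (J : Gal(Om/ℚ)) : Set (Gal(Om/ℚ) → ZMod p) :=
  {g | g ∈ VV p (Loc p) (MM p f) ∧ ∀ τ ∈ MM p f, g (J * τ * J⁻¹) = - g τ}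

/-- The even characters. -/
def AA (p f : ℕ) (J : Gal(Om/ℚ)) : Set (Gal(Om/ℚ) → ZMod p) :=
  {g | g ∈ VV p (Loc p) (MM p f) ∧ ∀ τ ∈ MM p f, g (J * τ * J⁻¹) = g τ}

theorem bb_gg (hSm : S_MSm) (p f : ℕ) [Fact p.Prime] (J : Gal(Om/ℚ)) :
    ∀ g ∈ BB p f J, ∃ n : ℕ, g ∈ GG' p f n J := by
  rintro g ⟨h1, h2⟩
  have h0 : g ∈ VV p ∅ (MM p f) := ⟨h1.1, h1.2.1, h1.2.2.1, fun Λ hΛ => absurd hΛ (by simp)⟩
  obtain ⟨k, hk⟩ := hSm p f g h0
  refine ⟨k, h1, h2, fun y hy => hk y fun z hz => ?_⟩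
  rw [IntermediateField.mem_fixingSubgroup_iff] at hy
  refine hy z (IntermediateField.subset_adjoin ℚ _ ?_)
  change z ^ (f * p ^ (k + 1)) = 1
  rw [pow_succ, ← mul_assoc, pow_mul, hz, one_pow]

theorem bb_finite (hSm : S_MSm) (p f : ℕ) [Fact p.Prime] (J : Gal(Om/ℚ)) (N : ℕ)
    (hN : ∀ n : ℕ, (GG' p f n J).Finite ∧ (GG' p f n J).ncard ≤ N) : (BB p f J).Finite := by
  by_contra hinf
  obtain ⟨F, hF, hcard⟩ := Set.Infinite.exists_subset_card_eq hinf (N + 1)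
  have h1 : ∀ F' : Finset (Gal(Om/ℚ) → ZMod p), (F' : Set (Gal(Om/ℚ) → ZMod p)) ⊆ BB p f J →
      ∃ n, (F' : Set (Gal(Om/ℚ) → ZMod p)) ⊆ GG' p f n J := by
    intro F'
    classical
    induction F' using Finset.induction_on with
    | empty => exact fun _ => ⟨0, by simp⟩
    | insert a s _ ih =>
      intro hs
      rw [Finset.coe_insert, Set.insert_subset_iff] at hs
      obtain ⟨n, hn⟩ := ih hs.2
      obtain ⟨n', hn'⟩ := bb_gg hSm p f J a hs.1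
      refine ⟨max n n', ?_⟩
      rw [Finset.coe_insert, Set.insert_subset_iff]
      exact ⟨gg_mono p f n' _ (le_max_right _ _) J hn',
        hn.trans (gg_mono p f n _ (le_max_left _ _) J)⟩
  obtain ⟨n, hn⟩ := h1 F hF
  have h2 := Set.ncard_le_ncard hn (hN n).1
  rw [Set.ncard_coe_finset, hcard] at h2
  have := (hN n).2
  omega

theorem aa_finite (hFW : S_FW) (p f : ℕ) [Fact p.Prime] (hp : p ≠ 2) (hf : 0 < f) (hpf : ¬ p ∣ f)
    (J : Gal(Om/ℚ))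
    (hE : ∀ g ∈ VV p (LocO p) (MM p f), (∀ τ ∈ MM p f, g (J * τ * J⁻¹) = g τ) →
      ∃ e ∈ VV p (LocO p) (UU p f), ∀ τ ∈ MM p f, e τ = g τ) : (AA p f J).Finite := by
  have hfin := hFW p f hp hf hpf
  have h1 : ∀ g : AA p f J, ∃ e : VV p (LocO p) (UU p f), ∀ τ ∈ MM p f, e.1 τ = g.1 τ := by
    rintro ⟨g, hg, hev⟩
    obtain ⟨e, he, heq⟩ := hE g ⟨hg.1, hg.2.1, hg.2.2.1, fun Λ hΛ => by
      obtain ⟨P, hP, hP0, -, rfl⟩ := hΛ
      exact hg.2.2.2 _ (Or.inl ⟨P, hP, hP0, rfl⟩)⟩ hev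
    exact ⟨⟨e, he⟩, heq⟩
  choose e he using h1
  have hinj : Function.Injective e := by
    intro g g' h
    apply Subtype.ext
    funext τ
    by_cases hτ : τ ∈ MM p f
    · rw [← he g τ hτ, ← he g' τ hτ, h]
    · rw [g.2.1.1 τ hτ, g'.2.1.1 τ hτ]
  have := Finite.of_injective e hinj
  exact Set.toFinite _

end MAsAux

open MAsAux in
theorem tMAs : S_MAs := by
  intro hCC hEJ hConj hFW hSm hE hB p f _ hp hf hpf
  obtain ⟨J, hJ⟩ := hCC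
  obtain ⟨hJJ, -⟩ := hEJ.2 J hJ
  obtain ⟨N, hN⟩ := hB p f hp hf hpf J hJ
  have hA := aa_finite hFW p f hp hf hpf J (hE p f hp hf J hJ)
  have hBf := bb_finite hSm p f J N hN
  have h2 : (2 : ZMod p) ≠ 0 := by
    intro h
    have h3 : ((2 : ℕ) : ZMod p) = 0 := by exact_mod_cast h
    rw [ZMod.natCast_eq_zero_iff] at h3
    exact hp ((Nat.prime_dvd_prime_iff_eq (Fact.out : p.Prime) Nat.prime_two).1 h3)
  have hfin : ((VV p (Loc p) (MM p f) : Set (Gal(Om/ℚ) → ZMod p))).Finite := by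
    refine (hA.image2 (fun a b => a + b) hBf).subset ?_
    intro g hg
    have hg' := cjc_mem hConj p f J g hg
    refine ⟨(2⁻¹ : ZMod p) • (g + cjc J g), ⟨?_, ?_⟩, (2⁻¹ : ZMod p) • (g - cjc J g), ⟨?_, ?_⟩, ?_⟩
    · exact Submodule.smul_mem _ _ (Submodule.add_mem _ hg hg')
    · intro τ _
      have e1 : cjc J g (J * τ * J⁻¹) = g τ := congrFun (cjc_cjc J hJJ g) τ
      change (2⁻¹ : ZMod p) * (g (J * τ * J⁻¹) + cjc J g (J * τ * J⁻¹)) =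
        (2⁻¹ : ZMod p) * (g τ + g (J * τ * J⁻¹))
      rw [e1, add_comm]
    · exact Submodule.smul_mem _ _ (Submodule.sub_mem _ hg hg')
    · intro τ _
      have e1 : cjc J g (J * τ * J⁻¹) = g τ := congrFun (cjc_cjc J hJJ g) τ
      change (2⁻¹ : ZMod p) * (g (J * τ * J⁻¹) - cjc J g (J * τ * J⁻¹)) =
        - ((2⁻¹ : ZMod p) * (g τ - g (J * τ * J⁻¹)))
      rw [e1]
      ring
    · funext τ
      change (2⁻¹ : ZMod p) * (g τ + cjc J g τ) + (2⁻¹ : ZMod p) * (g τ - cjc J g τ) = g τ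
      field_simp
      ring
  exact hfin.to_subtype

end Pool.Agent.FW
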