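import Pool.Agent.Lib.FW.SpecM
import Pool.Agent.Lib.MuZ.Orb

/-!
# FW, part M: the bound for the odd invariant characters
-/

open scoped Pointwise nonZeroDivisors

noncomputable section

namespace Pool.Agent.FW

open Pool.Agent.MuZ NumberField IsDedekindDomain

namespace MBdAux

section VVl

variable {G : Type} [Group G] [TopologicalSpace G] {p : ℕ} {Ls : Set (Subgroup G)}
  {W : Subgroup G} {e : G → ZMod p}

private theorem vv_one (he : e ∈ VV p Ls W) : e 1 = 0 := by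
  have h := he.2.1 1 W.one_mem 1 W.one_mem
  rw [mul_one] at h
  exact left_eq_add.1 h

private theorem vv_inv (he : e ∈ VV p Ls W) {x : G} (hx : x ∈ W) : e x⁻¹ = - e x := by
  have h := he.2.1 x⁻¹ (W.inv_mem hx) x hx
  rw [inv_mul_cancel, vv_one he] at h
  exact eq_neg_of_add_eq_zero_left h.symm

private theorem vv_pow (he : e ∈ VV p Ls W) {x : G} (hx : x ∈ W) (j : ℕ) :
    e (x ^ j) = j * e x := by
  induction j with
  | zero => rw [pow_zero, vv_one he, Nat.cast_zero, zero_mul]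
  | succ j ih =>
    rw [pow_succ, he.2.1 _ (W.pow_mem hx j) _ hx, ih]
    push_cast
    ring

private theorem vv_conj (he : e ∈ VV p Ls W) {x u : G} (hx : x ∈ W) (hu : u ∈ W) :
    e (u⁻¹ * x * u) = e x := by
  rw [he.2.1 _ (W.mul_mem (W.inv_mem hu) hx) _ hu, he.2.1 _ (W.inv_mem hu) _ hx, vv_inv he hu]
  ring

end VVl

/-- The decomposition groups of the representatives. -/
private theorem claim {p : ℕ} {Y M : Subgroup Gal(Om/ℚ)} {Ls Ls' : Set (Subgroup Gal(Om/ℚ))}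
    (hMY : M ≤ Y) {Λ : Subgroup Gal(Om/ℚ)} (hΛ : Λ ∈ Ls') {e g g' : Gal(Om/ℚ) → ZMod p}
    (he : e ∈ VV p Ls Y) (hg : g ∈ VV p Ls' M) (hg' : g' ∈ VV p Ls' M)
    (heM : ∀ τ ∈ M, e τ = g τ - g' τ) {d : Gal(Om/ℚ)} (hd : d ∈ Λ ⊓ Y) (hed : e d = 0)
    (hgen : ∀ y ∈ Λ ⊓ Y, ∀ O : OpenSubgroup Gal(Om/ℚ),
      ∃ j : ℕ, ∃ t ∈ (Λ ⊓ Y) ⊓ M, y⁻¹ * d ^ j * t ∈ O)
    {y : Gal(Om/ℚ)} (hy : y ∈ Λ ⊓ Y) : e y = 0 := by
  obtain ⟨O, hO⟩ := he.2.2.1
  obtain ⟨j, t, ht, hj⟩ := hgen y hy O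
  have htM : t ∈ M := ht.2
  have htY : t ∈ Y := hMY htM
  have hdj : d ^ j ∈ Y := Y.pow_mem hd.2 j
  have h1 := hO _ (Y.mul_mem (Y.mul_mem (Y.inv_mem hy.2) hdj) htY) hj
  rw [he.2.1 _ (Y.mul_mem (Y.inv_mem hy.2) hdj) _ htY, he.2.1 _ (Y.inv_mem hy.2) _ hdj,
    vv_inv he hy.2, vv_pow he hd.2, hed, mul_zero, add_zero, heM t htM,
    hg.2.2.2 Λ hΛ t ht.1.1 htM, hg'.2.2.2 Λ hΛ t ht.1.1 htM, sub_zero, add_zero] at h1
  exact neg_eq_zero.1 h1

/-- Counting. -/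
private theorem count {A B : Type} {W : Set B} (hW : W.Finite) (p : ℕ) [Fact p.Prime]
    (R : Finset A) {S : Set B} (Ψ : S → (R → ZMod p)) (E : S → B)
    (df : B → B → B) (hdf : ∀ a b c, df a c = df b c → a = b) (hE : Function.Injective E)
    (key : ∀ g g' : S, Ψ g = Ψ g' → df (E g) (E g') ∈ W) :
    S.Finite ∧ S.ncard ≤ p ^ R.card * W.ncard := by
  classical
  have hfW : Finite W := hW
  have hNe : NeZero p := ⟨(Fact.out : p.Prime).ne_zero⟩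
  rcases isEmpty_or_nonempty S with hemp | hne
  · have h0 : S = ∅ := Set.isEmpty_coe_sort.1 hemp
    rw [h0]
    exact ⟨Set.finite_empty, by rw [Set.ncard_empty]; exact Nat.zero_le _⟩
  have hs : ∀ g : S, Ψ g = Ψ (Function.invFun Ψ (Ψ g)) := fun g =>
    (Function.invFun_eq ⟨g, rfl⟩).symm
  let F : S → (R → ZMod p) × W := fun g =>
    (Ψ g, ⟨df (E g) (E (Function.invFun Ψ (Ψ g))), key g _ (hs g)⟩)
  have hF : Function.Injective F := by
    intro g g' h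
    have h1 : Ψ g = Ψ g' := congrArg Prod.fst h
    have h2 : df (E g) (E (Function.invFun Ψ (Ψ g))) =
        df (E g') (E (Function.invFun Ψ (Ψ g'))) :=
      congrArg (fun x : (R → ZMod p) × W => (x.2 : B)) h
    rw [h1] at h2
    exact hE (hdf _ _ _ h2)
  have hfS : Finite S := Finite.of_injective F hF
  refine ⟨hfS, ?_⟩
  have h3 := Nat.card_le_card_of_injective F hF
  rw [Nat.card_prod, Nat.card_fun, Nat.card_zmod, Nat.card_eq_fintype_card (α := R),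
    Fintype.card_coe, Nat.card_coe_set_eq, Nat.card_coe_set_eq] at h3
  exact h3

end MBdAux

open MBdAux

theorem tMBd : S_MBd := by
  intro hPc hEx p f n _ hp2 hf hpf δ J hJ hGq R hR hRep hWW
  classical
  have hMY : MM p f ≤ (Cy (f * p ^ (n + 1))).fixingSubgroup := hGq.le
  have hLoc : ∀ g ∈ GG' p f n J, g ∈ VV p (LocO p) (MM p f) := by
    intro g hg
    refine ⟨hg.1.1, hg.1.2.1, hg.1.2.2.1, ?_⟩
    rintro Λ ⟨P, hP, hP0, hpP, rfl⟩ x hx hxM
    exact hg.1.2.2.2 _ (Or.inl ⟨P, hP, hP0, rfl⟩) x hx hxM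
  have hex : ∀ g : GG' p f n J, ∃ e ∈ VV p (LocO p) (Cy (f * p ^ (n + 1))).fixingSubgroup,
      (∀ y ∈ (Cy (f * p ^ (n + 1))).fixingSubgroup, e (J * y * J⁻¹) = - e y) ∧
        ∀ τ ∈ MM p f, e τ = g.1 τ := fun g =>
    hEx p f n hp2 hf hpf δ J hJ hGq g.1 (hLoc g.1 g.2) g.2.2.1 g.2.2.2
  choose E hE1 hE2 hE3 using hex
  have hd : ∀ P : Ideal ZZ, ∃ δ' ∈ MulAction.stabilizer Gal(Om/ℚ) P ⊓
        (Cy (f * p ^ (n + 1))).fixingSubgroup,
      ∀ y ∈ MulAction.stabilizer Gal(Om/ℚ) P ⊓ (Cy (f * p ^ (n + 1))).fixingSubgroup,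
      ∀ O : OpenSubgroup Gal(Om/ℚ), ∃ j : ℕ,
        ∃ t ∈ (MulAction.stabilizer Gal(Om/ℚ) P ⊓ (Cy (f * p ^ (n + 1))).fixingSubgroup) ⊓
          MM p f, y⁻¹ * δ' ^ j * t ∈ O := fun P =>
    hPc Gal(Om/ℚ) p _ _ δ hGq _ inf_le_right ((Orb.stab_closed P).inter hGq.cloY)
  choose D hD1 hD2 using hd
  refine count hWW p R (fun g P => E g (D P.1)) E (fun a b => a - b)
    (fun a b c h => sub_left_injective h) ?_ ?_
  · -- `E` is injective
    intro g g' h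
    refine Subtype.ext (funext fun τ => ?_)
    by_cases hτ : τ ∈ MM p f
    · rw [← hE3 g τ hτ, ← hE3 g' τ hτ, h]
    · rw [g.2.1.1 τ hτ, g'.2.1.1 τ hτ]
  · intro g g' h
    have he : E g - E g' ∈ VV p (LocO p) (Cy (f * p ^ (n + 1))).fixingSubgroup :=
      Submodule.sub_mem _ (hE1 g) (hE1 g')
    have heM : ∀ τ ∈ MM p f, (E g - E g') τ = g.1 τ - g'.1 τ := by
      intro τ hτ
      rw [Pi.sub_apply, hE3 g τ hτ, hE3 g' τ hτ]
    -- the representatives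
    have hrep : ∀ P ∈ R, ∀ y ∈ MulAction.stabilizer Gal(Om/ℚ) P ⊓
        (Cy (f * p ^ (n + 1))).fixingSubgroup, (E g - E g') y = 0 := by
      intro P hP y hy
      have hed : (E g - E g') (D P) = 0 := by
        rw [Pi.sub_apply, sub_eq_zero]
        exact congrFun h ⟨P, hP⟩
      exact claim hMY (Ls' := Loc p) (Or.inr ⟨P, (hR P hP).1, (hR P hP).2, rfl⟩) he g.2.1 g'.2.1
        heM (hD1 P) hed (hD2 P) hy
    refine ⟨⟨he.1, he.2.1, he.2.2.1, ?_⟩, ?_⟩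
    · rintro Λ ⟨P, hP, hP0, rfl⟩ x hx hxY
      by_cases hpP : (p : ZZ) ∈ P
      · obtain ⟨P', hP', u, hu, rfl⟩ := hRep P hP hpP
        have huY := hMY hu
        have hst : x ∈ MulAction.stabilizer Gal(Om/ℚ) (u • P') :=
          Ideal.inertia_le_stabilizer _ hx
        have hst' : u⁻¹ * x * u ∈ MulAction.stabilizer Gal(Om/ℚ) P' := by
          rw [MulAction.mem_stabilizer_iff] at hst ⊢
          rw [mul_smul, mul_smul, hst, inv_smul_smul]
        rw [← vv_conj he hxY huY]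
        exact hrep P' hP' _ ⟨hst', Subgroup.mul_mem _ (Subgroup.mul_mem _
          (Subgroup.inv_mem _ huY) hxY) huY⟩
      · exact he.2.2.2 _ ⟨P, hP, hP0, hpP, rfl⟩ x hx hxY
    · intro τ hτ
      rw [Pi.sub_apply, Pi.sub_apply, hE2 g τ hτ, hE2 g' τ hτ]
      ring

end Pool.Agent.FW
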