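import Pool.Agent.Lib.FW.SpecM

/-!
# FW, part M, module MCl: odd class characters and odd ideal classes
-/

set_option autoImplicit false

open scoped Pointwise nonZeroDivisors

noncomputable section

namespace Pool.Agent.FW

open Pool.Agent.MuZ NumberField IsDedekindDomain

namespace MClAux

section Chars

variable (p : ℕ) (K : Type) [Field K] [NumberField K] (a : HeightOneSpectrum (𝓞 K) → ZMod p)

/-- The value of `a` at a fractional ideal. -/
def va (I : FractionalIdeal (𝓞 K)⁰ K) : ZMod p :=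
  ∑ᶠ v : HeightOneSpectrum (𝓞 K), ((FractionalIdeal.count K v I : ℤ) : ZMod p) * a v

theorem va_supp (I : FractionalIdeal (𝓞 K)⁰ K) :
    (Function.support fun v : HeightOneSpectrum (𝓞 K) =>
      ((FractionalIdeal.count K v I : ℤ) : ZMod p) * a v).Finite := by
  refine Set.Finite.subset (Filter.eventually_cofinite.1 (FractionalIdeal.finite_factors I)) ?_
  intro v hv h0
  apply hv
  change ((FractionalIdeal.count K v I : ℤ) : ZMod p) * a v = 0
  rw [h0, Int.cast_zero, zero_mul]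

theorem va_one : va p K a 1 = 0 := by
  unfold va
  rw [← finsum_zero]
  congr 1
  funext v
  rw [FractionalIdeal.count_one, Int.cast_zero, zero_mul]

theorem va_mul {I J : FractionalIdeal (𝓞 K)⁰ K} (hI : I ≠ 0) (hJ : J ≠ 0) :
    va p K a (I * J) = va p K a I + va p K a J := by
  unfold va
  rw [← finsum_add_distrib (va_supp p K a I) (va_supp p K a J)]
  congr 1
  funext v
  rw [FractionalIdeal.count_mul K v hI hJ, Int.cast_add, add_mul]

/-- The homomorphism on fractional ideals. -/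
def hh : (FractionalIdeal (𝓞 K)⁰ K)ˣ →* Multiplicative (ZMod p) where
  toFun I := Multiplicative.ofAdd (va p K a I)
  map_one' := by
    rw [Units.val_one, va_one, ofAdd_zero]
  map_mul' I J := by
    rw [Units.val_mul, va_mul p K a I.ne_zero J.ne_zero, ofAdd_add]

theorem hh_apply (I : (FractionalIdeal (𝓞 K)⁰ K)ˣ) :
    hh p K a I = Multiplicative.ofAdd (va p K a I) := rfl

variable {a}

theorem hh_principal (ha : ClCh p K a) :
    (toPrincipalIdeal (𝓞 K) K).range ≤ (hh p K a).ker := by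
  rintro _ ⟨x, rfl⟩
  rw [MonoidHom.mem_ker, hh_apply, coe_toPrincipalIdeal]
  have h := ha (x : K) x.ne_zero
  change Multiplicative.ofAdd (∑ᶠ v : HeightOneSpectrum (𝓞 K), (vl K v (x : K) : ZMod p) * a v) = 1
  rw [h, ofAdd_zero]

/-- The homomorphism on ideal classes. -/
def ch (ha : ClCh p K a) : ClassGroup (𝓞 K) →* Multiplicative (ZMod p) :=
  (QuotientGroup.lift (toPrincipalIdeal (𝓞 K) K).range (hh p K a) (hh_principal p K ha)).comp
    (ClassGroup.equiv K).toMonoidHom

theorem ch_mk0 (ha : ClCh p K a) (I : (Ideal (𝓞 K))⁰) :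
    ch p K ha (ClassGroup.mk0 I) =
      Multiplicative.ofAdd (va p K a ((I : Ideal (𝓞 K)) : FractionalIdeal (𝓞 K)⁰ K)) := by
  have h : ch p K ha (ClassGroup.mk0 I) =
      QuotientGroup.lift (toPrincipalIdeal (𝓞 K) K).range (hh p K a) (hh_principal p K ha)
        (ClassGroup.equiv K (ClassGroup.mk0 I)) := rfl
  rw [h, ClassGroup.equiv_mk0]
  rfl

/-- Prime ideals as nonzero ideals. -/
def pr (v : HeightOneSpectrum (𝓞 K)) : (Ideal (𝓞 K))⁰ :=
  ⟨v.asIdeal, mem_nonZeroDivisors_iff_ne_zero.2 v.ne_bot⟩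

theorem ch_pr (ha : ClCh p K a) (v : HeightOneSpectrum (𝓞 K)) :
    ch p K ha (ClassGroup.mk0 (pr K v)) = Multiplicative.ofAdd (a v) := by
  rw [ch_mk0]
  congr 1
  change va p K a ((v.asIdeal : Ideal (𝓞 K)) : FractionalIdeal (𝓞 K)⁰ K) = a v
  unfold va
  rw [finsum_eq_single _ v]
  · rw [FractionalIdeal.count_self, Int.cast_one, one_mul]
  · intro w hw
    rw [FractionalIdeal.count_maximal_coprime K w (Ne.symm hw), Int.cast_zero, zero_mul]

end Chars

section Inv

variable {R : Type} [CommRing R] [IsDomain R] [IsDedekindDomain R] (j : R ≃+* R)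

/-- The image of a nonzero ideal. -/
def mj (I : (Ideal R)⁰) : (Ideal R)⁰ :=
  ⟨(I : Ideal R).map j, by
    rw [mem_nonZeroDivisors_iff_ne_zero]
    intro h
    exact mem_nonZeroDivisors_iff_ne_zero.1 I.2
      ((Ideal.map_eq_bot_iff_of_injective (f := j) j.injective).1 h)⟩

theorem mj_mul (I J : (Ideal R)⁰) : mj j (I * J) = mj j I * mj j J := by
  apply Subtype.ext
  change ((I : Ideal R) * (J : Ideal R)).map j = (I : Ideal R).map j * (J : Ideal R).map j
  exact Ideal.map_mul j _ _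

theorem mj_mj (hj : ∀ x, j (j x) = x) (I : (Ideal R)⁰) : mj j (mj j I) = I := by
  apply Subtype.ext
  change ((I : Ideal R).map j).map j = (I : Ideal R)
  have h1 : ∀ I : Ideal R, (I.map j).map j ≤ I := by
    intro I
    rw [Ideal.map_le_iff_le_comap, Ideal.map_le_iff_le_comap]
    intro x hx
    change j (j x) ∈ I
    rw [hj]
    exact hx
  refine le_antisymm (h1 _) fun x hx => ?_
  have h2 := Ideal.mem_map_of_mem j (Ideal.mem_map_of_mem j hx)
  rwa [hj] at h2

theorem mj_span (x : R) (I : Ideal R) :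
    (Ideal.span {x} * I).map j = Ideal.span {j x} * I.map j := by
  rw [Ideal.map_mul, Ideal.map_span, Set.image_singleton]

theorem mk0_mj {I J : (Ideal R)⁰} (h : ClassGroup.mk0 I = ClassGroup.mk0 J) :
    ClassGroup.mk0 (mj j I) = ClassGroup.mk0 (mj j J) := by
  rw [ClassGroup.mk0_eq_mk0_iff] at h ⊢
  obtain ⟨x, y, hx, hy, h1⟩ := h
  refine ⟨j x, j y, ?_, ?_, ?_⟩
  · rwa [Ne, EmbeddingLike.map_eq_zero_iff]
  · rwa [Ne, EmbeddingLike.map_eq_zero_iff]
  · change Ideal.span {j x} * (I : Ideal R).map j = Ideal.span {j y} * (J : Ideal R).map j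
    rw [← mj_span, ← mj_span, h1]

/-- The function on the class group. -/
def jf (x : ClassGroup R) : ClassGroup R :=
  ClassGroup.mk0 (mj j (ClassGroup.mk0_surjective x).choose)

theorem jf_mk0 (I : (Ideal R)⁰) : jf j (ClassGroup.mk0 I) = ClassGroup.mk0 (mj j I) :=
  mk0_mj j (ClassGroup.mk0_surjective (ClassGroup.mk0 I)).choose_spec

theorem jf_mul (x y : ClassGroup R) : jf j (x * y) = jf j x * jf j y := by
  obtain ⟨I, rfl⟩ := ClassGroup.mk0_surjective x
  obtain ⟨J, rfl⟩ := ClassGroup.mk0_surjective y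
  rw [← map_mul, jf_mk0, jf_mk0, jf_mk0, mj_mul, map_mul]

theorem jf_jf (hj : ∀ x, j (j x) = x) (x : ClassGroup R) : jf j (jf j x) = x := by
  obtain ⟨I, rfl⟩ := ClassGroup.mk0_surjective x
  rw [jf_mk0, jf_mk0, mj_mj j hj]

/-- The involution of the class group. -/
def je (hj : ∀ x, j (j x) = x) : ClassGroup R ≃* ClassGroup R where
  toFun := jf j
  invFun := jf j
  left_inv := jf_jf j hj
  right_inv := jf_jf j hj
  map_mul' := jf_mul j

theorem je_mk0 (hj : ∀ x, j (j x) = x) (I : (Ideal R)⁰) :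
    je j hj (ClassGroup.mk0 I) = ClassGroup.mk0 (mj j I) := jf_mk0 j I

/-- Induction for nonzero ideals. -/
theorem ind {P : (Ideal R)⁰ → Prop} (h1 : P 1)
    (h2 : ∀ (v : HeightOneSpectrum R) (I : (Ideal R)⁰), P I →
      P (⟨v.asIdeal, mem_nonZeroDivisors_iff_ne_zero.2 v.ne_bot⟩ * I)) (I : (Ideal R)⁰) :
    P I := by
  have h3 : ∀ I : Ideal R, ∀ h : I ∈ (Ideal R)⁰, P ⟨I, h⟩ := by
    intro I
    induction I using UniqueFactorizationMonoid.induction_on_prime with
    | h₁ =>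
      intro h
      exact absurd rfl (mem_nonZeroDivisors_iff_ne_zero.1 h)
    | h₂ I hI =>
      intro h
      have h4 : (⟨I, h⟩ : (Ideal R)⁰) = 1 := by
        apply Subtype.ext
        change I = 1
        rwa [Ideal.isUnit_iff, ← Ideal.one_eq_top] at hI
      rw [h4]
      exact h1
    | h₃ I q hI hq ih =>
      intro h
      have h5 := h2 ⟨q, Ideal.isPrime_of_prime hq, hq.ne_zero⟩
        ⟨I, mem_nonZeroDivisors_iff_ne_zero.2 hI⟩ (ih _)
      exact h5
  exact h3 I.1 I.2

end Inv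

end MClAux

open MClAux in
theorem tMCl : S_MCl := by
  intro hFin p _ hp K _ _ j hj
  have hodd : ∀ a ∈ OddA p K j, ∀ ha : ClCh p K a, ∀ x : ClassGroup (𝓞 K),
      ch p K ha (je j hj x) = (ch p K ha x)⁻¹ := by
    intro a ha ha' x
    obtain ⟨I, rfl⟩ := ClassGroup.mk0_surjective x
    rw [je_mk0]
    induction I using MClAux.ind with
    | h1 =>
      have h1 : mj j (1 : (Ideal (𝓞 K))⁰) = 1 := by
        apply Subtype.ext
        change (1 : Ideal (𝓞 K)).map j = 1
        rw [Ideal.one_eq_top, Ideal.map_top]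
      rw [h1, map_one, map_one, inv_one]
    | h2 v I ih =>
      have h2 : mj j ⟨v.asIdeal, mem_nonZeroDivisors_iff_ne_zero.2 v.ne_bot⟩ =
          pr K ⟨v.asIdeal.map j, Ideal.map_isPrime_of_equiv j,
            mem_nonZeroDivisors_iff_ne_zero.1
              (mj j ⟨v.asIdeal, mem_nonZeroDivisors_iff_ne_zero.2 v.ne_bot⟩).2⟩ := rfl
      have h3 : (⟨v.asIdeal, mem_nonZeroDivisors_iff_ne_zero.2 v.ne_bot⟩ : (Ideal (𝓞 K))⁰) =
          pr K v := rfl
      rw [mj_mul, map_mul, map_mul, ih, h2, ch_pr, ha.2 v _ rfl, map_mul, map_mul, h3, ch_pr,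
        mul_inv, ofAdd_neg]
  -- the map from odd class characters
  let Θ : OddA p K j → {χ : ClassGroup (𝓞 K) →* Multiplicative (ZMod p) //
      ∀ x, χ (je j hj x) = (χ x)⁻¹} := fun a => ⟨ch p K a.2.1, hodd a.1 a.2 a.2.1⟩
  have hΘ : Function.Injective Θ := by
    rintro ⟨a, ha⟩ ⟨b, hb⟩ h
    apply Subtype.ext
    change a = b
    funext v
    have h1 : ch p K ha.1 = ch p K hb.1 :=
      congrArg (fun z : {χ : ClassGroup (𝓞 K) →* Multiplicative (ZMod p) //
        ∀ x, χ (je j hj x) = (χ x)⁻¹} => z.1) h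
    have h2 := DFunLike.congr_fun h1 (ClassGroup.mk0 (pr K v))
    rw [ch_pr, ch_pr] at h2
    exact Multiplicative.ofAdd.injective h2
  haveI : NeZero p := ⟨(Fact.out : p.Prime).ne_zero⟩
  haveI hf1 : Finite (Multiplicative (ZMod p)) := inferInstanceAs (Finite (ZMod p))
  haveI hf2 : Finite (ClassGroup (𝓞 K) →* Multiplicative (ZMod p)) :=
    Finite.of_injective (fun χ : ClassGroup (𝓞 K) →* Multiplicative (ZMod p) =>
      (χ : ClassGroup (𝓞 K) → Multiplicative (ZMod p))) DFunLike.coe_injective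
  have hfin : Finite (OddA p K j) := Finite.of_injective Θ hΘ
  refine ⟨Set.toFinite _, ?_⟩
  have h1 : (OddA p K j).ncard ≤ Nat.card {χ : ClassGroup (𝓞 K) →* Multiplicative (ZMod p) //
      ∀ x, χ (je j hj x) = (χ x)⁻¹} := by
    rw [← Nat.card_coe_set_eq]
    exact Nat.card_le_card_of_injective Θ hΘ
  have h2 := hFin p hp (ClassGroup (𝓞 K)) (je j hj) (jf_jf j hj)
  have h3 : Nat.card {x : ClassGroup (𝓞 K) // x ^ p = 1 ∧ je j hj x = x⁻¹} ≤
      (OddC p K j).ncard := by
    have h4 : {x : ClassGroup (𝓞 K) | x ^ p = 1 ∧ je j hj x = x⁻¹} ⊆ OddC p K j := by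
      rintro x ⟨hx1, hx2⟩
      obtain ⟨I, rfl⟩ := ClassGroup.mk0_surjective x
      refine ⟨I.1, I.2, ⟨mem_nonZeroDivisors_iff_ne_zero.1 I.2, ?_, ?_⟩, rfl⟩
      · rw [← map_pow] at hx1
        obtain ⟨b, hb⟩ := ((ClassGroup.mk0_eq_one_iff (I ^ p).2).1 hx1).principal
        exact ⟨b, hb⟩
      · have h5 : ClassGroup.mk0 (I * mj j I) = 1 := by
          rw [map_mul, ← je_mk0 j hj, hx2, mul_inv_cancel]
        obtain ⟨b, hb⟩ := ((ClassGroup.mk0_eq_one_iff (I * mj j I).2).1 h5).principal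
        exact ⟨b, hb⟩
    have h5 := Set.ncard_le_ncard h4 (Set.toFinite _)
    rwa [← Nat.card_coe_set_eq] at h5
  exact h1.trans (h2.trans h3)

end Pool.Agent.FW
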