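import Pool.Agent.Lib.FW.SpecM
import Pool.Agent.Lib.MuZ.TFix

/-!
# FW, part M: `M` as the group of a cyclotomic extension
-/

open scoped Pointwise

noncomputable section

namespace Pool.Agent.FW

open Pool.Agent.MuZ

namespace MCycAux

theorem fix_adjoin (S : Set Om) (σ : Gal(Om/ℚ)) (h : ∀ z ∈ S, σ z = z) :
    σ ∈ (IntermediateField.adjoin ℚ S).fixingSubgroup := by
  rw [IntermediateField.mem_fixingSubgroup_iff]
  intro x hx
  have h3 : IntermediateField.adjoin ℚ S ≤ IntermediateField.fixedField (Subgroup.zpowers σ) := by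
    rw [IntermediateField.adjoin_le_iff]
    intro z hz
    rw [SetLike.mem_coe, IntermediateField.mem_fixedField_iff]
    intro g hg
    have h4 : Subgroup.zpowers σ ≤ MulAction.stabilizer Gal(Om/ℚ) z := by
      rw [Subgroup.zpowers_le]
      exact h z hz
    exact h4 hg
  exact (IntermediateField.mem_fixedField_iff _ x).1 (h3 hx) σ (Subgroup.mem_zpowers σ)

/-- An automorphism which fixes the `p`-th roots of unity acts on the `p`-power roots of unity by a
unit congruent to `1`. -/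
theorem chi_one (p : ℕ) [hp : Fact p.Prime] (σ : Gal(Om/ℚ)) (h : ∀ z : Om, z ^ p = 1 → σ z = z) :
    (p : ℤ_[p]) ∣ (TFixAux.chi p σ : ℤ_[p]) - 1 := by
  obtain ⟨ζ, hζ⟩ := HasEnoughRootsOfUnity.exists_primitiveRoot Om (p ^ 1)
  have h1 := TFixAux.chi_spec p σ 1 ζ hζ.pow_eq_one
  rw [h ζ (by have := hζ.pow_eq_one; rwa [pow_one] at this)] at h1
  have : NeZero (p ^ 1) := ⟨pow_ne_zero _ hp.out.ne_zero⟩
  set c := (TFixAux.chi p σ).val.toZModPow 1 with hc
  have h2 : ζ ^ c.val = ζ ^ (1 : ℕ) := h1.symm.trans (pow_one ζ).symm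
  have h3 : c.val ≡ 1 [MOD p ^ 1] := by
    have hn0 : p ^ 1 ≠ 0 := pow_ne_zero _ hp.out.ne_zero
    have hu := hζ.isUnit_unit hn0
    have h5 : (hζ.isUnit hn0).unit ^ c.val = (hζ.isUnit hn0).unit ^ (1 : ℕ) := by
      apply Units.ext
      rw [Units.val_pow_eq_pow_val, Units.val_pow_eq_pow_val]
      exact h2
    have := pow_eq_pow_iff_modEq.1 h5
    rwa [← hu.eq_orderOf] at this
  have h4 : ((c.val : ℕ) : ZMod (p ^ 1)) = ((1 : ℕ) : ZMod (p ^ 1)) :=
    (ZMod.natCast_eq_natCast_iff _ _ _).2 h3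
  rw [ZMod.natCast_zmod_val, Nat.cast_one] at h4
  have h6 : (TFixAux.chi p σ : ℤ_[p]) - 1 ∈ RingHom.ker (PadicInt.toZModPow (p := p) 1) := by
    rw [RingHom.mem_ker, map_sub, map_one, ← hc, h4, sub_self]
  rw [PadicInt.ker_toZModPow, Ideal.mem_span_singleton, pow_one] at h6
  exact h6

/-- An automorphism which fixes the `p`-th roots of unity and has finite order on the `p`-power roots
of unity fixes them. -/
theorem fix_pp (p : ℕ) [hp : Fact p.Prime] (h2 : p ≠ 2) (σ : Gal(Om/ℚ))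
    (h : ∀ z : Om, z ^ p = 1 → σ z = z) (m : ℕ) (hm : 0 < m)
    (h3 : ∀ z : Om, (∃ n : ℕ, z ^ p ^ n = 1) → (σ ^ m) z = z) (z : Om)
    (hz : ∃ n : ℕ, z ^ p ^ n = 1) : σ z = z := by
  refine TFixAux.fix_of_chi p σ ?_ z hz
  have h4 : TFixAux.chi p σ ^ m = 1 := by
    rw [← map_pow]
    exact TFixAux.chi_of_fix p _ h3
  apply Units.ext
  rw [Units.val_one]
  refine TFixAux.tors_gen p _ m hm ?_ (chi_one p σ h) fun h5 => absurd h5 h2
  rw [← Units.val_pow_eq_pow_val, h4, Units.val_one]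

end MCycAux

open MCycAux in
theorem tMCyc : S_MCyc := by
  intro hT p f hpp hp hf hpf
  apply le_antisymm
  · intro σ hσ
    rw [cyc, IntermediateField.fixingSubgroup_sup, Subgroup.mem_inf]
    refine ⟨fix_adjoin _ σ fun z hz => hσ z ⟨1, by rw [pow_one]; exact hz⟩, ?_⟩
    rw [IntermediateField.mem_fixingSubgroup_iff]
    intro x hx
    refine hx σ ⟨1, one_pos, fun z hz => ?_⟩
    obtain ⟨n, hn⟩ := hz
    rw [pow_one]
    exact hσ z ⟨n, by rw [mul_comm, pow_mul, hn, one_pow]⟩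
  · intro σ hσ z hz
    rw [cyc, IntermediateField.fixingSubgroup_sup, Subgroup.mem_inf] at hσ
    obtain ⟨h1, h2⟩ := hσ
    rw [IntermediateField.mem_fixingSubgroup_iff] at h1
    have h1' : ∀ t : Om, t ^ (f * p) = 1 → σ t = t := fun t ht =>
      h1 t (IntermediateField.subset_adjoin ℚ _ ht)
    have h3 : ∀ t : Om, (∃ n : ℕ, t ^ p ^ n = 1) → σ t = t := by
      refine fix_pp p hp σ (fun t ht => h1' t ?_) (2 * (p - 1)) ?_ (hT p hpp.out σ h2)
      · rw [mul_comm, pow_mul, ht, one_pow]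
      · have := hpp.out.two_le
        omega
    obtain ⟨n, hn⟩ := hz
    have hz0 : z ≠ 0 := by
      rintro rfl
      rw [zero_pow (mul_ne_zero hf.ne' (pow_ne_zero _ hpp.out.ne_zero))] at hn
      exact zero_ne_one hn
    have hco : Nat.Coprime f (p ^ n) :=
      Nat.Coprime.pow_right n ((Nat.coprime_comm.1 ((Nat.Prime.coprime_iff_not_dvd hpp.out).2 hpf)))
    have hbez : (f : ℤ) * Nat.gcdA f (p ^ n) + ((p ^ n : ℕ) : ℤ) * Nat.gcdB f (p ^ n) = 1 := by
      have := Nat.gcd_eq_gcd_ab f (p ^ n)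
      rw [hco.gcd_eq_one] at this
      rw [← this]
      rfl
    have e1 : σ (z ^ f) = z ^ f := h3 _ ⟨n, by rw [← pow_mul]; exact hn⟩
    have e2 : σ (z ^ p ^ n) = z ^ p ^ n := by
      refine h1' _ ?_
      rw [← pow_mul, mul_comm (p ^ n), mul_assoc, mul_comm p, ← mul_assoc, pow_mul, hn, one_pow]
    have e3 : z = (z ^ f) ^ (Nat.gcdA f (p ^ n)) * (z ^ p ^ n) ^ (Nat.gcdB f (p ^ n)) := by
      rw [← zpow_natCast z f, ← zpow_natCast z (p ^ n), ← zpow_mul, ← zpow_mul, ← zpow_add₀ hz0,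
        hbez, zpow_one]
    rw [e3, map_mul, map_zpow₀, map_zpow₀, e1, e2]

end Pool.Agent.FW
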