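import Pool.Agent.Lib.FW.SpecM
import Pool.Agent.Lib.MuZ.Inst

/-!
# FW, part M, module MEx: odd invariant characters extend
-/

open scoped Pointwise nonZeroDivisors

noncomputable section

namespace Pool.Agent.FW

open Pool.Agent.MuZ NumberField IsDedekindDomain

private theorem MEx_conj (J : Gal(Om/ℚ)) (O : OpenSubgroup Gal(Om/ℚ)) :
    ∃ O' : OpenSubgroup Gal(Om/ℚ), ∀ y, y ∈ O' → y ∈ O ∧ J * y * J⁻¹ ∈ O := by
  have hc : Continuous (MulAut.conj J).toMonoidHom := by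
    have h1 : Continuous fun y : Gal(Om/ℚ) => J * y * J⁻¹ :=
      (continuous_const.mul continuous_id).mul continuous_const
    exact h1
  refine ⟨O ⊓ O.comap (MulAut.conj J).toMonoidHom hc, fun y hy => ⟨hy.1, ?_⟩⟩
  have h2 : y ∈ O.comap (MulAut.conj J).toMonoidHom hc := hy.2
  rw [OpenSubgroup.mem_comap] at h2
  exact h2

private theorem MEx_inv (J : Gal(Om/ℚ)) (z : Om) : J (J⁻¹ z) = z := by
  rw [← AlgEquiv.mul_apply, mul_inv_cancel, AlgEquiv.one_apply]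

theorem tMEx : S_MEx := by
  intro hPL hSemi hVal hCy hEJ hEIn p f n hpF hp2 hf hpf δ J hJ hGq g hg hodd hinv
  classical
  obtain ⟨-, hfix, -, -, -, -, -, -⟩ := hCy
  obtain ⟨hJJ, -, -⟩ := hEJ.2 J hJ
  obtain ⟨g0, gadd, ⟨Og, gO⟩, gL⟩ := hg
  obtain ⟨γ, hγ⟩ := hPL Gal(Om/ℚ) p _ _ δ hGq
  obtain ⟨h', hmul, ⟨O, hO⟩, hext, -⟩ := hSemi hVal Gal(Om/ℚ) p _ _ γ hγ
    (Multiplicative (ZMod p)) (fun x => Multiplicative.ofAdd (g x)) 1
    (fun x hx y hy => by rw [gadd x hx y hy, ofAdd_add])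
    ⟨Og, fun x hx hxO => by rw [gO x hx hxO, ofAdd_zero]⟩ ⟨0, one_pow _⟩
    (fun x hx => by rw [hinv γ hγ.mem x hx, one_mul, inv_one, mul_one])
  set Y : Subgroup Gal(Om/ℚ) := (Cy (f * p ^ (n + 1))).fixingSubgroup with hY
  have hYJ : ∀ y ∈ Y, J * y * J⁻¹ ∈ Y := by
    intro y hy
    rw [hY, hfix] at hy ⊢
    intro z hz
    rw [AlgEquiv.mul_apply, AlgEquiv.mul_apply, hy (J⁻¹ z) (by rw [← map_pow, hz, map_one]),
      MEx_inv]
  have hMJ : ∀ y ∈ MM p f, J * y * J⁻¹ ∈ MM p f := by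
    intro y hy z hz
    rw [AlgEquiv.mul_apply, AlgEquiv.mul_apply, hy _ (hz.map J⁻¹), MEx_inv]
  have hMY : MM p f ≤ Y := hGq.le
  let e0 : Gal(Om/ℚ) → ZMod p := fun y => Multiplicative.toAdd (h' y)
  have e0add : ∀ x ∈ Y, ∀ y ∈ Y, e0 (x * y) = e0 x + e0 y := fun x hx y hy => by
    show Multiplicative.toAdd (h' (x * y)) = _
    rw [hmul x hx y hy, toAdd_mul]
  have e0O : ∀ x ∈ Y, x ∈ O → e0 x = 0 := fun x hx hxO => by
    show Multiplicative.toAdd (h' x) = _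
    rw [hO x hx hxO, toAdd_one]
  have e0M : ∀ x ∈ MM p f, e0 x = g x := fun x hx => by
    show Multiplicative.toAdd (h' x) = _
    rw [hext x hx, toAdd_ofAdd]
  have h2 : (2 : ZMod p) ≠ 0 := by
    intro h
    have h3 : ((2 : ℕ) : ZMod p) = 0 := by exact_mod_cast h
    rw [ZMod.natCast_eq_zero_iff] at h3
    exact hp2 ((Nat.prime_dvd_prime_iff_eq hpF.out Nat.prime_two).1 h3)
  let e : Gal(Om/ℚ) → ZMod p := fun y => if y ∈ Y then 2⁻¹ * (e0 y - e0 (J * y * J⁻¹)) else 0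
  have he : ∀ y ∈ Y, e y = 2⁻¹ * (e0 y - e0 (J * y * J⁻¹)) := fun y hy => if_pos hy
  have heM : ∀ τ ∈ MM p f, e τ = g τ := by
    intro τ hτ
    rw [he τ (hMY hτ), e0M τ hτ, e0M _ (hMJ τ hτ), hodd τ hτ]
    have : g τ - -g τ = 2 * g τ := by ring
    rw [this, inv_mul_cancel_left₀ h2]
  refine ⟨e, ⟨fun y hy => if_neg hy, ?_, ?_, ?_⟩, ?_, heM⟩
  · intro x hx y hy
    have h3 : J * (x * y) * J⁻¹ = (J * x * J⁻¹) * (J * y * J⁻¹) := by group
    rw [he _ (mul_mem hx hy), he x hx, he y hy, e0add x hx y hy, h3,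
      e0add _ (hYJ x hx) _ (hYJ y hy)]
    ring
  · obtain ⟨O', hO'⟩ := MEx_conj J O
    refine ⟨O', fun y hy hyO => ?_⟩
    rw [he y hy, e0O y hy (hO' y hyO).1, e0O _ (hYJ y hy) (hO' y hyO).2, sub_zero, mul_zero]
  · rintro Λ hΛ σ hσ hσY
    obtain ⟨P, hP, hP0, hpP, rfl⟩ := hΛ
    have hσM : σ ∈ MM p f := by
      refine hEIn p f hpF.out hf hpf P hP hpP σ hσ fun z hz => ?_
      rw [hY, hfix] at hσY
      exact hσY z (by rw [pow_mul, hz, one_pow])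
    rw [heM σ hσM]
    exact gL _ ⟨P, hP, hP0, hpP, rfl⟩ σ hσ hσM
  · intro y hy
    have h3 : J * (J * y * J⁻¹) * J⁻¹ = y := by
      have h4 : J * (J * y * J⁻¹) * J⁻¹ = (J * J) * y * (J * J)⁻¹ := by group
      rw [h4, hJJ, inv_one, one_mul, mul_one]
    rw [he _ (hYJ y hy), he y hy, h3]
    ring

end Pool.Agent.FW
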