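import Pool.Agent.Lib.FW.SpecM
import Pool.Agent.Lib.MuZ.InT

/-!
# FW, stage 2, module MExU: even characters of `M` extend to `U`
-/

open scoped Pointwise nonZeroDivisors

noncomputable section

namespace Pool.Agent.FW

open Pool.Agent.MuZ NumberField IsDedekindDomain

/-- complex conjugation: an involution which inverts the roots of unity -/
private theorem MExU_J (J : Gal(Om/ℚ)) (hJ : IsCC J) :
    J * J = 1 ∧ ∀ (N : ℕ) (z : Om), N ≠ 0 → z ^ N = 1 → J z = z⁻¹ := by
  obtain ⟨φ, hφ⟩ := hJ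
  refine ⟨?_, fun N z hN hz => ?_⟩
  · ext x
    rw [AlgEquiv.mul_apply, AlgEquiv.one_apply]
    refine φ.injective ?_
    rw [hφ, hφ, Complex.conj_conj]
  · refine φ.injective ?_
    rw [hφ, map_inv₀]
    have h1 : (φ z) ^ N = 1 := by rw [← map_pow, hz, map_one]
    have h2 : ‖φ z‖ = 1 := Complex.norm_eq_one_of_pow_eq_one h1 hN
    rw [Complex.inv_def, Complex.normSq_eq_norm_sq, h2]
    simp

private theorem MExU_zeta (p : ℕ) [hp : Fact p.Prime] : ∃ ζ : Om, IsPrimitiveRoot ζ p := by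
  have : NeZero ((p : ℕ) : Om) := ⟨by exact_mod_cast hp.out.ne_zero⟩
  exact HasEnoughRootsOfUnity.exists_primitiveRoot Om p

theorem tMExU : S_MExU := by
  classical
  intro p f hpF hp2 hf J hJ g hg hgJ
  have hp : p.Prime := hpF.out
  obtain ⟨hJJ, hJz⟩ := MExU_J J hJ
  obtain ⟨ζ, hζ⟩ := MExU_zeta p
  obtain ⟨-, hadd, ⟨O, hO⟩, hloc⟩ := hg
  have hζ1 : ζ ^ p = 1 := hζ.pow_eq_one
  have hζ0 : ζ ≠ 0 := hζ.ne_zero hp.ne_zero
  have hζrt : IsRt p f ζ := ⟨1, by rw [pow_one, mul_comm, pow_mul, hζ1, one_pow]⟩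
  have hζinv : ζ⁻¹ ≠ ζ := by
    intro h
    have h2 : ζ ^ 2 = 1 := by
      rw [pow_two]
      nth_rewrite 1 [← h]
      exact inv_mul_cancel₀ hζ0
    have h3 := hζ.dvd_of_pow_eq_one 2 h2
    exact hp2 ((Nat.prime_dvd_prime_iff_eq hp Nat.prime_two).1 h3)
  have hJrt : ∀ z : Om, IsRt p f z → J z = z⁻¹ := by
    rintro z ⟨n, hz⟩
    exact hJz _ z (Nat.mul_ne_zero hf.ne' (pow_ne_zero n hp.ne_zero)) hz
  have hJU : J ∈ UU p f := Or.inr hJrt
  have hMU : MM p f ≤ UU p f := MM_le_UU p f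
  have hJinv : J⁻¹ = J := by
    rw [inv_eq_iff_mul_eq_one]
    exact hJJ
  -- elements of `U` outside `M`
  have hout : ∀ τ ∈ UU p f, τ ∉ MM p f → ∀ z : Om, IsRt p f z → τ z = z⁻¹ := by
    rintro τ (h | h) hn
    · exact absurd h hn
    · exact h
  have hin : ∀ τ ∈ UU p f, τ ζ = ζ → τ ∈ MM p f := by
    intro τ hτ h
    by_contra hn
    exact hζinv ((hout τ hτ hn ζ hζrt).symm.trans h)
  have hmulJ : ∀ τ ∈ UU p f, τ ∉ MM p f → τ * J ∈ MM p f := by
    intro τ hτ hn z hz
    rw [AlgEquiv.mul_apply, hJrt z hz, hout τ hτ hn _ hz.inv, inv_inv]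
  have hconj : ∀ μ ∈ MM p f, J * μ * J ∈ MM p f := by
    intro μ hμ z hz
    rw [AlgEquiv.mul_apply, AlgEquiv.mul_apply, hJrt z hz, hμ _ hz.inv, hJrt _ hz.inv, inv_inv]
  have hgconj : ∀ μ ∈ MM p f, g (J * μ * J) = g μ := by
    intro μ hμ
    have := hgJ μ hμ
    rwa [hJinv] at this
  obtain ⟨e, he⟩ : ∃ e : Gal(Om/ℚ) → ZMod p, ∀ τ, e τ =
      if τ ∈ MM p f then g τ else if τ ∈ UU p f then g (τ * J) else 0 := ⟨_, fun _ => rfl⟩
  have he1 : ∀ τ ∈ MM p f, e τ = g τ := fun τ hτ => by rw [he, if_pos hτ]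
  have he2 : ∀ τ ∈ UU p f, τ ∉ MM p f → e τ = g (τ * J) := fun τ hτ hn => by
    rw [he, if_neg hn, if_pos hτ]
  refine ⟨e, ⟨fun τ hτ => ?_, fun a ha b hb => ?_, ?_, ?_⟩, he1⟩
  · rw [he, if_neg fun h => hτ (hMU h), if_neg hτ]
  · by_cases hM : a ∈ MM p f <;> by_cases hM' : b ∈ MM p f
    · rw [he1 _ ((MM p f).mul_mem hM hM'), he1 a hM, he1 b hM', hadd a hM b hM']
    · have h1 : a * b ∉ MM p f := by
        intro h
        have := (MM p f).mul_mem ((MM p f).inv_mem hM) h
        rw [inv_mul_cancel_left] at this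
        exact hM' this
      rw [he2 _ ((UU p f).mul_mem ha hb) h1, he1 a hM, he2 b hb hM', mul_assoc,
        hadd a hM _ (hmulJ b hb hM')]
    · have h1 : a * b ∉ MM p f := by
        intro h
        have := (MM p f).mul_mem h ((MM p f).inv_mem hM')
        rw [mul_inv_cancel_right] at this
        exact hM this
      have h2 : a * b * J = a * J * (J * b * J) := by
        calc a * b * J = a * (1 * b * J) := by rw [one_mul, mul_assoc]
          _ = a * (J * J * b * J) := by rw [hJJ]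
          _ = a * J * (J * b * J) := by simp only [mul_assoc]
      rw [he2 _ ((UU p f).mul_mem ha hb) h1, he2 a ha hM, he1 b hM', h2,
        hadd _ (hmulJ a ha hM) _ (hconj b hM'), hgconj b hM']
    · have h2 : a * b = a * J * (J * (b * J) * J) := by
        calc a * b = a * (1 * b * 1) := by rw [one_mul, mul_one]
          _ = a * (J * J * b * (J * J)) := by rw [hJJ]
          _ = a * J * (J * (b * J) * J) := by simp only [mul_assoc]
      have h1 : a * b ∈ MM p f := by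
        rw [h2]
        exact (MM p f).mul_mem (hmulJ a ha hM) (hconj _ (hmulJ b hb hM'))
      rw [he1 _ h1, he2 a ha hM, he2 b hb hM', h2, hadd _ (hmulJ a ha hM) _
        (hconj _ (hmulJ b hb hM')), hgconj _ (hmulJ b hb hM')]
  · -- continuity
    have hfd : FiniteDimensional ℚ (IntermediateField.adjoin ℚ {ζ}) :=
      IntermediateField.adjoin.finiteDimensional (Algebra.IsIntegral.isIntegral ζ)
    refine ⟨O ⊓ ⟨(IntermediateField.adjoin ℚ {ζ}).fixingSubgroup,
      IntermediateField.fixingSubgroup_isOpen _⟩, fun τ hτ hτO => ?_⟩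
    have h1 : τ ∈ (IntermediateField.adjoin ℚ {ζ}).fixingSubgroup := hτO.2
    have h2 : τ ζ = ζ := (IntermediateField.mem_fixingSubgroup_iff _ _).1 h1 ζ
      (IntermediateField.mem_adjoin_simple_self ℚ ζ)
    have h3 := hin τ hτ h2
    rw [he1 τ h3]
    exact hO τ h3 hτO.1
  · -- the local groups
    intro Λ hΛ σ hσ hσU
    have hmem : σ ∈ MM p f := by
      obtain ⟨P, hP, -, hpP, rfl⟩ := hΛ
      refine hin σ hσU ?_
      have hint : IsIntegral ℤ ζ := by
        refine IsIntegral.of_pow hp.pos ?_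
        rw [hζ1]
        exact isIntegral_one
      obtain ⟨x, hx⟩ : ∃ x : ZZ, (x : Om) = ζ := ⟨⟨ζ, hint⟩, rfl⟩
      have hx1 : x ^ p = 1 := Subtype.ext (by
        show (x : Om) ^ p = 1
        rw [hx, hζ1])
      have hxx : x * x ^ (p - 1) = 1 := by
        rw [← pow_succ', Nat.sub_add_cancel hp.pos, hx1]
      have hs : σ • x - x ∈ P := hσ x
      have h1 : (σ • x * x ^ (p - 1)) ^ p ^ 1 = 1 := by
        rw [pow_one, mul_pow, ← smul_pow', hx1, smul_one, one_mul, ← pow_mul, mul_comm (p - 1),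
          pow_mul, hx1, one_pow]
      have h2 : σ • x * x ^ (p - 1) - 1 ∈ P := by
        have e1 : σ • x * x ^ (p - 1) - 1 = (σ • x - x) * x ^ (p - 1) := by
          rw [sub_mul, hxx]
        rw [e1]
        exact P.mul_mem_right _ hs
      have h3 : σ • x * x ^ (p - 1) = 1 := InTAux.root_one hP hpP h1 h2
      have h4 : σ • x = x := by
        calc σ • x = σ • x * (x * x ^ (p - 1)) := by rw [hxx, mul_one]
          _ = (σ • x * x ^ (p - 1)) * x := by ring
          _ = x := by rw [h3, one_mul]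
      have h5 : σ (x : Om) = (x : Om) := congrArg Subtype.val h4
      rwa [hx] at h5
    rw [he1 σ hmem]
    exact hloc Λ hΛ σ hσ hmem

end Pool.Agent.FW
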