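import Pool.Agent.Lib.FW.SpecM

/-!
# FW, part M, module MFin: odd characters of finite abelian groups
-/

set_option autoImplicit false

noncomputable section

namespace Pool.Agent.FW

namespace MFinAux

/-- The standard embedding of `Z/p` into the multiplicative group of the complex numbers. -/
private def st (p : ℕ) [NeZero p] : Multiplicative (ZMod p) →* ℂˣ :=
  (AddChar.toMonoidHom (ZMod.stdAddChar (N := p))).toHomUnits

private theorem st_inj (p : ℕ) [NeZero p] : Function.Injective (st p) := by
  intro a b h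
  have h1 : ((st p a : ℂˣ) : ℂ) = ((st p b : ℂˣ) : ℂ) := by rw [h]
  have h2 : ZMod.stdAddChar (N := p) (Multiplicative.toAdd a) =
      ZMod.stdAddChar (N := p) (Multiplicative.toAdd b) := h1
  exact Multiplicative.toAdd.injective (ZMod.injective_stdAddChar h2)

private theorem pow_p (p : ℕ) (a : Multiplicative (ZMod p)) : a ^ p = 1 := by
  apply Multiplicative.toAdd.injective
  rw [toAdd_pow, toAdd_one, nsmul_eq_mul, ZMod.natCast_self, zero_mul]

private theorem hom (p : ℕ) [Fact p.Prime] (B : Type) [CommGroup B] [Finite B] :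
    ∃ F : (B →* Multiplicative (ZMod p)) → B, Function.Injective F ∧ ∀ χ, F χ ^ p = 1 := by
  have : NeZero (Monoid.exponent B) := ⟨Monoid.exponent_ne_zero_of_finite⟩
  obtain ⟨e⟩ := CommGroup.monoidHom_mulEquiv_of_hasEnoughRootsOfUnity B ℂ
  refine ⟨fun χ => e ((st p).comp χ), ?_, ?_⟩
  · intro χ χ' h
    have h1 : (st p).comp χ = (st p).comp χ' := e.injective h
    apply MonoidHom.ext
    intro x
    exact st_inj p (DFunLike.congr_fun h1 x)
  · intro χ
    have h1 : ((st p).comp χ) ^ p = 1 := by
      apply MonoidHom.ext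
      intro x
      rw [MonoidHom.pow_apply, MonoidHom.comp_apply, ← map_pow, pow_p, map_one,
        MonoidHom.one_apply]
    change e ((st p).comp χ) ^ p = 1
    rw [← map_pow, h1, map_one]

end MFinAux

open MFinAux in
theorem tMFin : S_MFin := by
  intro p _ hp C _ _ j hj
  -- the odd part
  let B : Subgroup C :=
    { carrier := {x | j x = x⁻¹}
      mul_mem' := by
        intro x y hx hy
        change j (x * y) = (x * y)⁻¹
        rw [map_mul, hx, hy, mul_inv]
      one_mem' := by
        change j 1 = 1⁻¹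
        rw [map_one, inv_one]
      inv_mem' := by
        intro x hx
        change j x⁻¹ = x⁻¹⁻¹
        rw [map_inv, hx] }
  have hB : ∀ x : C, x * (j x)⁻¹ ∈ B := by
    intro x
    change j (x * (j x)⁻¹) = (x * (j x)⁻¹)⁻¹
    rw [map_mul, map_inv, hj, mul_inv, inv_inv, mul_comm]
  obtain ⟨F, hF, hFp⟩ := hom p B
  let Φ : {χ : C →* Multiplicative (ZMod p) // ∀ x, χ (j x) = (χ x)⁻¹} →
      {x : C // x ^ p = 1 ∧ j x = x⁻¹} := fun χ =>
    ⟨(F (χ.1.comp B.subtype) : C), by
      have h1 := hFp (χ.1.comp B.subtype)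
      have h2 := congrArg (fun y : B => (y : C)) h1
      exact h2, (F (χ.1.comp B.subtype)).2⟩
  refine Nat.card_le_card_of_injective Φ ?_
  rintro ⟨χ, hχ⟩ ⟨χ', hχ'⟩ h
  have h0 : ((F (χ.comp B.subtype) : B) : C) = ((F (χ'.comp B.subtype) : B) : C) :=
    congrArg (fun z : {x : C // x ^ p = 1 ∧ j x = x⁻¹} => (z : C)) h
  have h1 : F (χ.comp B.subtype) = F (χ'.comp B.subtype) := Subtype.ext h0
  have h2 : χ.comp B.subtype = χ'.comp B.subtype := hF h1
  apply Subtype.ext
  change χ = χ'
  apply MonoidHom.ext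
  intro x
  have h3 : χ (x * (j x)⁻¹) = χ' (x * (j x)⁻¹) := DFunLike.congr_fun h2 ⟨_, hB x⟩
  rw [map_mul, map_inv, hχ, inv_inv, map_mul, map_inv, hχ', inv_inv] at h3
  -- squares are injective
  have h4 : ∀ a : Multiplicative (ZMod p), (a * a) ^ ((p + 1) / 2) = a := by
    intro a
    have h5 : 2 * ((p + 1) / 2) = p + 1 := by
      have : p % 2 = 1 := by
        rcases (Fact.out : p.Prime).eq_two_or_odd with h6 | h6
        · exact absurd h6 hp
        · exact h6
      omega
    rw [← pow_two, ← pow_mul, h5, pow_succ, pow_p, one_mul]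
  rw [← h4 (χ x), h3, h4]

end Pool.Agent.FW
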