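import Pool.Agent.Lib.FW.SpecM

/-!
# FW, part M, module MInj: odd classes inject into the characters of `U`
-/

open scoped Pointwise nonZeroDivisors

noncomputable section

namespace Pool.Agent.FW

open Pool.Agent.MuZ NumberField IsDedekindDomain

namespace MInjAux

theorem ideal_pow_inj {R : Type} [CommRing R] [IsDedekindDomain R] {I J : Ideal R} {n : ℕ}
    (hn : n ≠ 0) (h : I ^ n = J ^ n) : I = J := by
  have h1 : I ∣ J := (UniqueFactorizationMonoid.pow_dvd_pow_iff_dvd hn).mp (dvd_of_eq h)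
  have h2 : J ∣ I := (UniqueFactorizationMonoid.pow_dvd_pow_iff_dvd hn).mp (dvd_of_eq h.symm)
  exact le_antisymm (Ideal.dvd_iff_le.1 h2) (Ideal.dvd_iff_le.1 h1)

/-- In a commutative group: `X⁻¹ Y = X Y⁻¹`, `X ^ p = 1 = Y ^ p`, `p` odd. -/
theorem group_odd {C : Type} [CommGroup C] {X Y : C} {p : ℕ} (hp : Odd p) (hX : X ^ p = 1)
    (hY : Y ^ p = 1) (h : X⁻¹ * Y = X * Y⁻¹) : X = Y := by
  obtain ⟨q, rfl⟩ := hp
  have h1 : Y * Y = X * X := by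
    calc Y * Y = X * (X⁻¹ * Y) * Y := by group
      _ = X * (X * Y⁻¹) * Y := by rw [h]
      _ = X * X := by group
  have h2 : X * (X * X) ^ q = 1 := by
    rw [← hX, pow_succ, pow_mul, sq, mul_comm]
  have h3 : Y * (X * X) ^ q = 1 := by
    rw [← hY, pow_succ, pow_mul, sq, h1, mul_comm]
  exact mul_right_cancel (h2.trans h3.symm)

theorem mk0_mul {R : Type} [CommRing R] [IsDedekindDomain R] {I J : Ideal R} (hI : I ∈ (Ideal R)⁰)
    (hJ : J ∈ (Ideal R)⁰) (hIJ : I * J ∈ (Ideal R)⁰) :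
    ClassGroup.mk0 ⟨I * J, hIJ⟩ = ClassGroup.mk0 ⟨I, hI⟩ * ClassGroup.mk0 ⟨J, hJ⟩ := by
  rw [← map_mul]
  rfl

theorem mk0_pow {R : Type} [CommRing R] [IsDedekindDomain R] {I : Ideal R} (hI : I ∈ (Ideal R)⁰)
    (n : ℕ) (hIn : I ^ n ∈ (Ideal R)⁰) :
    ClassGroup.mk0 ⟨I ^ n, hIn⟩ = ClassGroup.mk0 ⟨I, hI⟩ ^ n := by
  rw [← map_pow]
  rfl

theorem mk0_span {R : Type} [CommRing R] [IsDedekindDomain R] {s : R}
    (hs : Ideal.span {s} ∈ (Ideal R)⁰) : ClassGroup.mk0 ⟨Ideal.span {s}, hs⟩ = 1 :=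
  (ClassGroup.mk0_eq_one_iff hs).2 ⟨s, rfl⟩

/-- The equality of the classes. -/
theorem classes_eq {R : Type} [CommRing R] [IsDedekindDomain R] {p : ℕ} (hp : Odd p)
    {I I' A A' : Ideal R} {s t : R} (hI : I ∈ (Ideal R)⁰) (hI' : I' ∈ (Ideal R)⁰)
    (hA : A ∈ (Ideal R)⁰) (hA' : A' ∈ (Ideal R)⁰) (hs : s ≠ 0) (ht : t ≠ 0)
    (h : (Ideal.span {s} * A * I') ^ p = (Ideal.span {t} * I * A') ^ p)
    (h1 : ∃ c : R, I * A = Ideal.span {c}) (h2 : ∃ c : R, I' * A' = Ideal.span {c})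
    (h3 : ∃ c : R, I ^ p = Ideal.span {c}) (h4 : ∃ c : R, I' ^ p = Ideal.span {c}) :
    ClassGroup.mk0 ⟨I, hI⟩ = ClassGroup.mk0 ⟨I', hI'⟩ := by
  have hs' : Ideal.span {s} ∈ (Ideal R)⁰ := by
    rw [mem_nonZeroDivisors_iff_ne_zero, Ne, Ideal.zero_eq_bot, Ideal.span_singleton_eq_bot]
    exact hs
  have ht' : Ideal.span {t} ∈ (Ideal R)⁰ := by
    rw [mem_nonZeroDivisors_iff_ne_zero, Ne, Ideal.zero_eq_bot, Ideal.span_singleton_eq_bot]
    exact ht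
  have h5 := ideal_pow_inj hp.pos.ne' h
  have h6 : ClassGroup.mk0 ⟨Ideal.span {s} * A * I', mul_mem (mul_mem hs' hA) hI'⟩ =
      ClassGroup.mk0 ⟨Ideal.span {t} * I * A', mul_mem (mul_mem ht' hI) hA'⟩ :=
    congrArg ClassGroup.mk0 (Subtype.ext h5)
  rw [mk0_mul (mul_mem hs' hA) hI', mk0_mul hs' hA, mk0_mul (mul_mem ht' hI) hA', mk0_mul ht' hI,
    mk0_span, mk0_span, one_mul, one_mul] at h6
  have h7 : ClassGroup.mk0 ⟨I, hI⟩ * ClassGroup.mk0 ⟨A, hA⟩ = 1 := by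
    obtain ⟨c, hc⟩ := h1
    rw [← mk0_mul hI hA (mul_mem hI hA), ClassGroup.mk0_eq_one_iff, hc]
    exact ⟨c, rfl⟩
  have h8 : ClassGroup.mk0 ⟨I', hI'⟩ * ClassGroup.mk0 ⟨A', hA'⟩ = 1 := by
    obtain ⟨c, hc⟩ := h2
    rw [← mk0_mul hI' hA' (mul_mem hI' hA'), ClassGroup.mk0_eq_one_iff, hc]
    exact ⟨c, rfl⟩
  have h9 : ClassGroup.mk0 ⟨I, hI⟩ ^ p = 1 := by
    obtain ⟨c, hc⟩ := h3
    rw [← mk0_pow hI p (pow_mem hI p), ClassGroup.mk0_eq_one_iff, hc]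
    exact ⟨c, rfl⟩
  have h10 : ClassGroup.mk0 ⟨I', hI'⟩ ^ p = 1 := by
    obtain ⟨c, hc⟩ := h4
    rw [← mk0_pow hI' p (pow_mem hI' p), ClassGroup.mk0_eq_one_iff, hc]
    exact ⟨c, rfl⟩
  refine group_odd hp h9 h10 ?_
  rw [inv_eq_of_mul_eq_one_right h7, inv_eq_of_mul_eq_one_right h8]
  exact h6

theorem map_mem {R : Type} [CommRing R] [IsDedekindDomain R] (j : R ≃+* R) {I : Ideal R}
    (hI : I ∈ (Ideal R)⁰) : I.map j ∈ (Ideal R)⁰ := by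
  rw [mem_nonZeroDivisors_iff_ne_zero] at hI ⊢
  intro h
  apply hI
  exact (Ideal.map_eq_bot_iff_of_injective (f := (j : R →+* R)) j.injective).1 h

/-- The embedding of the integers of `Cy m` into `Om`. -/
def io (m : ℕ) : 𝓞 (Cy m) →+* Om :=
  (algebraMap (Cy m) Om).comp (algebraMap (𝓞 (Cy m)) (Cy m))

theorem io_apply (m : ℕ) (x : 𝓞 (Cy m)) : io m x = ((x : Cy m) : Om) := rfl

theorem io_inj (m : ℕ) : Function.Injective (io m) :=
  (algebraMap (Cy m) Om).injective.comp (FaithfulSMul.algebraMap_injective (𝓞 (Cy m)) (Cy m))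

theorem io_J (m : ℕ) (J : Gal(Om/ℚ)) (x : 𝓞 (Cy m)) : io m (Jm m J x) = J (io m x) := rfl

theorem io_mem (m : ℕ) (x : 𝓞 (Cy m)) : io m x ∈ Cy m := (x : Cy m).2

/-- The equation of ideals. -/
theorem ideals_eq {R : Type} [CommRing R] [IsDedekindDomain R] {p : ℕ} (j : R ≃+* R)
    {I I' : Ideal R} {s t b b' ε : R} (hb : I ^ p = Ideal.span {b}) (hb' : I' ^ p = Ideal.span {b'})
    (hε : IsUnit ε) (key : s ^ p * ε * j b * b' = t ^ p * b * j b') :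
    (Ideal.span {s} * I.map j * I') ^ p = (Ideal.span {t} * I * I'.map j) ^ p := by
  have h1 : I.map j ^ p = Ideal.span {j b} := by
    rw [← Ideal.map_pow, hb, Ideal.map_span, Set.image_singleton]
  have h2 : I'.map j ^ p = Ideal.span {j b'} := by
    rw [← Ideal.map_pow, hb', Ideal.map_span, Set.image_singleton]
  rw [mul_pow, mul_pow, mul_pow, mul_pow, h1, h2, hb, hb', Ideal.span_singleton_pow,
    Ideal.span_singleton_pow, Ideal.span_singleton_mul_span_singleton,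
    Ideal.span_singleton_mul_span_singleton, Ideal.span_singleton_mul_span_singleton,
    Ideal.span_singleton_mul_span_singleton, ← key,
    show s ^ p * ε * j b * b' = ε * (s ^ p * j b * b') by ring,
    Ideal.span_singleton_mul_left_unit hε]

/-- The main step. -/
theorem core (p m : ℕ) [Fact p.Prime] [NumberField (Cy m)] (hp : p ≠ 2)
    (M : Subgroup Gal(Om/ℚ)) (J : Gal(Om/ℚ))
    (hP : ∀ k : Om, (∀ σ ∈ M, σ k = k) → k ^ p ∈ Cy m →
      ∃ k' ∈ Cy m, ∃ (η : Om) (N : ℕ), 0 < N ∧ η ^ N = 1 ∧ k = k' * η)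
    (ζ : Om) (hζ : ζ ≠ 0) (g : Gal(Om/ℚ) → ZMod p) (I I' : Ideal (𝓞 (Cy m)))
    (hI : OddI p (Cy m) (Jm m J) I) (hI' : OddI p (Cy m) (Jm m J) I')
    (b b' : 𝓞 (Cy m)) (β β' : Om) (hb : I ^ p = Ideal.span {b}) (hb' : I' ^ p = Ideal.span {b'})
    (hb0 : b ≠ 0) (hb0' : b' ≠ 0) (hβ0 : β ≠ 0) (hβ0' : β' ≠ 0)
    (hβ : β ^ p * J ((b : Cy m) : Om) = ((b : Cy m) : Om))
    (hβ' : β' ^ p * J ((b' : Cy m) : Om) = ((b' : Cy m) : Om))
    (hg : ∀ σ ∈ M, σ β = ζ ^ (g σ).val * β) (hg' : ∀ σ ∈ M, σ β' = ζ ^ (g σ).val * β')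
    (h1 : I ∈ (Ideal (𝓞 (Cy m)))⁰) (h2 : I' ∈ (Ideal (𝓞 (Cy m)))⁰) :
    ClassGroup.mk0 ⟨I, h1⟩ = ClassGroup.mk0 ⟨I', h2⟩ := by
  rw [← io_apply] at hβ hβ'
  have hx0 : io m b ≠ 0 := fun h => hb0 (io_inj m (by rw [h, map_zero]))
  have hx0' : io m b' ≠ 0 := fun h => hb0' (io_inj m (by rw [h, map_zero]))
  have hJ0 : J (io m b) ≠ 0 := fun h => hx0 (J.injective (by rw [h, map_zero]))
  have hJ0' : J (io m b') ≠ 0 := fun h => hx0' (J.injective (by rw [h, map_zero]))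
  obtain ⟨k, hk⟩ : ∃ k : Om, k = β / β' := ⟨_, rfl⟩
  have hk0 : k ≠ 0 := by
    rw [hk]
    exact div_ne_zero hβ0 hβ0'
  have hkfix : ∀ σ ∈ M, σ k = k := by
    intro σ hσ
    rw [hk, map_div₀, hg σ hσ, hg' σ hσ, mul_div_mul_left _ _ (pow_ne_zero _ hζ)]
  have hkp : k ^ p * (J (io m b) * io m b') = io m b * J (io m b') := by
    have h3 : β' ^ p ≠ 0 := pow_ne_zero _ hβ0'
    calc k ^ p * (J (io m b) * io m b')
        = β ^ p / β' ^ p * (J (io m b) * (β' ^ p * J (io m b'))) := by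
          rw [hβ', hk, div_pow]
      _ = (β ^ p * J (io m b)) * J (io m b') := by
          field_simp
      _ = io m b * J (io m b') := by rw [hβ]
  have hkK : k ^ p ∈ Cy m := by
    have h3 : k ^ p = io m b * J (io m b') / (J (io m b) * io m b') :=
      eq_div_of_mul_eq (mul_ne_zero hJ0 hx0') hkp
    rw [h3]
    exact div_mem (mul_mem (io_mem m b) (Cy_map J (io_mem m b')))
      (mul_mem (Cy_map J (io_mem m b)) (io_mem m b'))
  obtain ⟨k', hk', η, N, hN, hη, hkη⟩ := hP k hkfix hkK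
  have hk0' : k' ≠ 0 := by
    rintro rfl
    exact hk0 (by rw [hkη, zero_mul])
  obtain ⟨s, t, ht, hst⟩ := IsFractionRing.div_surjective (A := 𝓞 (Cy m)) (⟨k', hk'⟩ : Cy m)
  have ht0 : t ≠ 0 := nonZeroDivisors.ne_zero ht
  have htO : io m t ≠ 0 := fun h => ht0 (io_inj m (by rw [h, map_zero]))
  have hsk : io m s = k' * io m t := by
    have h3 := congrArg (algebraMap (Cy m) Om) hst
    rw [map_div₀] at h3
    exact (div_eq_iff htO).1 h3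
  have hs0 : s ≠ 0 := by
    rintro rfl
    rw [map_zero] at hsk
    exact mul_ne_zero hk0' htO hsk.symm
  have hηp : k ^ p = k' ^ p * η ^ p := by rw [hkη, mul_pow]
  have hηK : η ^ p ∈ Cy m := by
    have h3 : η ^ p = k ^ p / k' ^ p := by
      rw [eq_div_iff (pow_ne_zero _ hk0'), hηp, mul_comm]
    rw [h3]
    exact div_mem hkK (pow_mem hk' p)
  have hεN : (⟨η ^ p, hηK⟩ : Cy m) ^ N = 1 := by
    apply Subtype.ext
    show (η ^ p) ^ N = 1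
    rw [← pow_mul, mul_comm, pow_mul, hη, one_pow]
  have hεi : IsIntegral ℤ (⟨η ^ p, hηK⟩ : Cy m) := by
    apply IsIntegral.of_pow hN
    rw [hεN]
    exact isIntegral_one
  obtain ⟨ε, hε⟩ : ∃ ε : 𝓞 (Cy m), io m ε = η ^ p := ⟨⟨⟨η ^ p, hηK⟩, hεi⟩, rfl⟩
  have hεu : IsUnit ε := by
    refine IsUnit.of_pow_eq_one (n := N) ?_ hN.ne'
    apply io_inj m
    rw [map_pow, hε, map_one, ← pow_mul, mul_comm, pow_mul, hη, one_pow]
  have key : s ^ p * ε * Jm m J b * b' = t ^ p * b * Jm m J b' := by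
    apply io_inj m
    rw [map_mul, map_mul, map_mul, map_mul, map_mul, map_pow, map_pow, io_J, io_J, hε, hsk]
    calc (k' * io m t) ^ p * η ^ p * J (io m b) * io m b'
        = io m t ^ p * ((k' ^ p * η ^ p) * (J (io m b) * io m b')) := by ring
      _ = io m t ^ p * io m b * J (io m b') := by rw [← hηp, hkp]; ring
  have hodd : Odd p := (Fact.out : p.Prime).odd_of_ne_two hp
  exact classes_eq hodd h1 h2 (map_mem (Jm m J) h1) (map_mem (Jm m J) h2) hs0 ht0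
    (ideals_eq (Jm m J) hb hb' hεu key) hI.2.2 hI'.2.2 hI.2.1 hI'.2.1

end MInjAux

open MInjAux in
theorem tMInj : S_MInj := by
  intro hK hP p f n _ _ hp hf hpf J hJ hfin
  obtain ⟨ζ, hζ⟩ := HasEnoughRootsOfUnity.exists_primitiveRoot Om p
  have hζ0 : ζ ≠ 0 := hζ.ne_zero (Fact.out : p.Prime).ne_zero
  have hex : ∀ x : ClassGroup (𝓞 (Cy (f * p ^ (n + 1)))), ∃ g : Gal(Om/ℚ) → ZMod p,
      x ∈ OddC p (Cy (f * p ^ (n + 1))) (Jm (f * p ^ (n + 1)) J) →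
      g ∈ VV p (LocO p) (UU p f) ∧
      ∃ (I : Ideal (𝓞 (Cy (f * p ^ (n + 1))))) (h : I ∈ (Ideal (𝓞 (Cy (f * p ^ (n + 1)))))⁰)
        (b : 𝓞 (Cy (f * p ^ (n + 1)))) (β : Om),
        OddI p (Cy (f * p ^ (n + 1))) (Jm (f * p ^ (n + 1)) J) I ∧ ClassGroup.mk0 ⟨I, h⟩ = x ∧
        I ^ p = Ideal.span {b} ∧ b ≠ 0 ∧ β ≠ 0 ∧
        β ^ p * J ((b : Cy (f * p ^ (n + 1))) : Om) = ((b : Cy (f * p ^ (n + 1))) : Om) ∧
        ∀ σ ∈ MM p f, σ β = ζ ^ (g σ).val * β := by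
    intro x
    by_cases hx : x ∈ OddC p (Cy (f * p ^ (n + 1))) (Jm (f * p ^ (n + 1)) J)
    · obtain ⟨I, h, hI, hIx⟩ := hx
      obtain ⟨g, hg, b, β, h1, h2, h3, h4, _, h6⟩ := hK p f n hp hf hpf J hJ ζ hζ I hI
      exact ⟨g, fun _ => ⟨hg, I, h, b, β, hI, hIx, h1, h2, h3, h4, h6⟩⟩
    · exact ⟨0, fun h => absurd h hx⟩
  choose A hA using hex
  have hmaps : Set.MapsTo A (OddC p (Cy (f * p ^ (n + 1))) (Jm (f * p ^ (n + 1)) J))
      (VV p (LocO p) (UU p f) : Set (Gal(Om/ℚ) → ZMod p)) := fun x hx => (hA x hx).1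
  have hinj : Set.InjOn A (OddC p (Cy (f * p ^ (n + 1))) (Jm (f * p ^ (n + 1)) J)) := by
    intro x hx y hy hxy
    obtain ⟨_, I, h, b, β, hI, hIx, h1, h2, h3, h4, h6⟩ := hA x hx
    obtain ⟨_, I', h', b', β', hI', hIy, h1', h2', h3', h4', h6'⟩ := hA y hy
    rw [← hxy] at h6'
    rw [← hIx, ← hIy]
    exact core p (f * p ^ (n + 1)) hp (MM p f) J
      (fun k hk hkK => hP p f n hp hf hpf k hk hkK) ζ hζ0 (A x) I I' hI hI' b b' β β' h1 h1' h2 h2'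
      h3 h3' h4 h4' h6 h6' h h'
  have hfin' : (VV p (LocO p) (UU p f) : Set (Gal(Om/ℚ) → ZMod p)).Finite := Set.toFinite _
  calc (OddC p (Cy (f * p ^ (n + 1))) (Jm (f * p ^ (n + 1)) J)).ncard
      ≤ (VV p (LocO p) (UU p f) : Set (Gal(Om/ℚ) → ZMod p)).ncard :=
        Set.ncard_le_ncard_of_injOn A hmaps hinj hfin'
    _ = Nat.card (VV p (LocO p) (UU p f)) := (Nat.card_coe_set_eq _).symm

end Pool.Agent.FW
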