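import Pool.Agent.Lib.FW.SpecM

/-!
# FW, part M, module MKum: the character of an odd class

If `I ^ p = (b)`, `β₀ ^ p = b` and `P` is a prime of `ZZ` then there are `x ∈ I`, `u ∈ ZZ`, `u ∉ P`, with
`u β₀ = x`. So `β = β₀ / J β₀` is, up to elements of `K`, a quotient of two elements outside `P`, and the
character of `β` is unramified at `P` if `p ∉ P`.
-/

set_option autoImplicit false

open scoped Pointwise nonZeroDivisors

noncomputable section

namespace Pool.Agent.FW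

open Pool.Agent.MuZ NumberField IsDedekindDomain

namespace MKumAux

theorem root_one {R : Type*} [CommRing R] [IsDomain R] {P : Ideal R}
    {p : ℕ} (hp : (p : R) ∉ P) {y : R} (h1 : y ^ p = 1) (h2 : y - 1 ∈ P) : y = 1 := by
  by_contra hne
  have e1 : (∑ i ∈ Finset.range p, y ^ i) * (y - 1) = 0 := by
    rw [geom_sum_mul, h1, sub_self]
  have e2 : (∑ i ∈ Finset.range p, y ^ i) = 0 := by
    rcases mul_eq_zero.1 e1 with h | h
    · exact h
    · exact absurd (sub_eq_zero.1 h) hne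
  have e3 : (∑ i ∈ Finset.range p, (y ^ i - 1)) ∈ P := by
    refine Ideal.sum_mem P (fun i _ => ?_)
    have hd : y - 1 ∣ y ^ i - 1 := by
      have := sub_dvd_pow_sub_pow y 1 i
      rwa [one_pow] at this
    exact Ideal.mem_of_dvd P hd h2
  rw [Finset.sum_sub_distrib, e2, Finset.sum_const, Finset.card_range, zero_sub,
    Ideal.neg_mem_iff, nsmul_eq_mul, mul_one] at e3
  exact hp e3

theorem zpow_add {p : ℕ} [Fact p.Prime] {ζ : Om} (hζ : IsPrimitiveRoot ζ p)
    (a b : ZMod p) : ζ ^ (a + b).val = ζ ^ a.val * ζ ^ b.val := by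
  rw [← pow_add, ZMod.val_add]
  conv_rhs => rw [← Nat.div_add_mod (a.val + b.val) p, pow_add, pow_mul, hζ.pow_eq_one,
    one_pow, one_mul]

theorem zpow_inj {p : ℕ} [Fact p.Prime] {ζ : Om} (hζ : IsPrimitiveRoot ζ p)
    {a b : ZMod p} (h : ζ ^ a.val = ζ ^ b.val) : a = b :=
  ZMod.val_injective p (hζ.pow_inj (ZMod.val_lt _) (ZMod.val_lt _) h)

/-- Elements of `I` divided by `β₀`. -/
theorem unit_at (K : IntermediateField ℚ Om) [NumberField K] (p : ℕ) (hp : 0 < p)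
    (I : Ideal (𝓞 K)) (b : 𝓞 K) (hI : I ^ p = Ideal.span {b}) (β₀ : Om)
    (hβ0 : β₀ ≠ 0) (hβ : β₀ ^ p = ((b : K) : Om)) (P : Ideal ZZ) (hP : P.IsPrime) :
    ∃ x ∈ I, ∃ u : ZZ, u ∉ P ∧ (u : Om) * β₀ = ((x : K) : Om) := by
  by_contra hcon
  push Not at hcon
  -- all quotients are in `P`
  have h1 : ∀ x ∈ I, ∃ u ∈ P, (u : Om) * β₀ = ((x : K) : Om) := by
    intro x hx
    have h2 : x ^ p ∈ Ideal.span {b} := by
      rw [← hI]
      exact Ideal.pow_mem_pow hx p
    obtain ⟨r, hr⟩ := Ideal.mem_span_singleton.1 h2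
    have h3 : (((x : K) : Om) / β₀) ^ p = ((r : K) : Om) := by
      rw [div_pow, hβ, div_eq_iff]
      · have h4 : ((x : K) : Om) ^ p = (((x ^ p : 𝓞 K) : K) : Om) := by
          push_cast
          rfl
        rw [h4, hr]
        push_cast
        ring
      · rw [← hβ]
        exact pow_ne_zero _ hβ0
    have h4 : IsIntegral ℤ (((x : K) : Om) / β₀) := by
      refine IsIntegral.of_pow hp ?_
      rw [h3]
      exact (iO K r).2
    have h5 : (((⟨((x : K) : Om) / β₀, h4⟩ : ZZ) : ZZ) : Om) * β₀ = ((x : K) : Om) :=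
      div_mul_cancel₀ _ hβ0
    refine ⟨⟨((x : K) : Om) / β₀, h4⟩, ?_, h5⟩
    by_contra h6
    exact hcon x hx _ h6 h5
  have h2 : ∀ k : ℕ, ∀ y ∈ I ^ k, ∃ w ∈ P ^ k, (w : Om) * β₀ ^ k = ((y : K) : Om) := by
    intro k
    induction k with
    | zero =>
      intro y _
      refine ⟨iO K y, by rw [pow_zero, Ideal.one_eq_top]; exact Submodule.mem_top, ?_⟩
      rw [pow_zero, mul_one]
      rfl
    | succ k ih =>
      intro y hy
      rw [pow_succ] at hy
      refine Submodule.mul_induction_on hy ?_ ?_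
      · intro m hm n hn
        obtain ⟨w, hw, hw'⟩ := ih m hm
        obtain ⟨u, hu, hu'⟩ := h1 n hn
        refine ⟨w * u, ?_, ?_⟩
        · rw [pow_succ]
          exact Ideal.mul_mem_mul hw hu
        · have h3 : (((m * n : 𝓞 K) : K) : Om) = ((m : K) : Om) * ((n : K) : Om) := by
            push_cast
            rfl
          rw [h3, ← hw', ← hu']
          push_cast
          ring
      · rintro y₁ y₂ ⟨w₁, hw₁, e₁⟩ ⟨w₂, hw₂, e₂⟩
        refine ⟨w₁ + w₂, Ideal.add_mem _ hw₁ hw₂, ?_⟩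
        have h3 : (((y₁ + y₂ : 𝓞 K) : K) : Om) = ((y₁ : K) : Om) + ((y₂ : K) : Om) := by
          push_cast
          rfl
        rw [h3, ← e₁, ← e₂]
        push_cast
        ring
  obtain ⟨w, hw, hw'⟩ := h2 p b (by rw [hI]; exact Ideal.mem_span_singleton_self b)
  have h3 : (w : Om) = 1 := by
    have h4 : β₀ ^ p ≠ 0 := pow_ne_zero _ hβ0
    apply mul_right_cancel₀ h4
    rw [hw', one_mul, hβ]
  have h4 : w = 1 := Subtype.ext h3
  rw [h4] at hw
  have h5 : (1 : ZZ) ∈ P := Ideal.pow_le_self hp.ne' hw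
  exact hP.ne_top ((Ideal.eq_top_iff_one P).2 h5)

/-- `Gal(Ω/K_∞)` fixes the fields `Cy`. -/
theorem MM_Cy {p f n : ℕ} {σ : Gal(Om/ℚ)} (hσ : σ ∈ MM p f) {x : Om}
    (hx : x ∈ Cy (f * p ^ (n + 1))) : σ x = x := by
  have h1 : Cy (f * p ^ (n + 1)) ≤ IntermediateField.fixedField (MM p f) := by
    unfold Cy
    rw [IntermediateField.adjoin_le_iff]
    intro z hz
    rw [SetLike.mem_coe, IntermediateField.mem_fixedField_iff]
    intro τ hτ
    exact hτ z ⟨n + 1, hz⟩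
  exact (IntermediateField.mem_fixedField_iff _ _).1 (h1 hx) σ hσ

theorem MM_conj {p f : ℕ} {σ : Gal(Om/ℚ)} (hσ : σ ∈ MM p f) (τ : Gal(Om/ℚ)) :
    τ * σ * τ⁻¹ ∈ MM p f := by
  intro z hz
  rw [AlgEquiv.mul_apply, AlgEquiv.mul_apply, hσ _ (hz.map τ⁻¹), ← AlgEquiv.mul_apply,
    mul_inv_cancel, AlgEquiv.one_apply]

end MKumAux

open MKumAux in
theorem tMKum : S_MKum := by
  classical
  intro hEJ hMExU p f n _ _ hp2 hf hpf J hJ ζ hζ I hI
  obtain ⟨hJJ, hJrt, -⟩ := hEJ.2 J hJ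
  have hpp : p.Prime := Fact.out
  obtain ⟨hI0, ⟨b, hb⟩, -⟩ := hI
  have hJJx : ∀ x : Om, J (J x) = x := by
    intro x
    rw [← AlgEquiv.mul_apply, hJJ, AlgEquiv.one_apply]
  have hJinv : J⁻¹ = J := inv_eq_of_mul_eq_one_left hJJ
  have hb0 : b ≠ 0 := by
    intro h
    rw [h, Ideal.span_singleton_zero] at hb
    exact hI0 (pow_eq_zero_iff hpp.ne_zero |>.1 hb)
  have hbO : ((b : Cy (f * p ^ (n + 1))) : Om) ≠ 0 := by
    intro h
    apply hb0
    have h1 : (b : Cy (f * p ^ (n + 1))) = 0 := Subtype.ext h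
    exact RingOfIntegers.ext h1
  obtain ⟨β₀, hβ₀⟩ := IsAlgClosed.exists_pow_nat_eq ((b : Cy (f * p ^ (n + 1))) : Om) hpp.pos
  have hβ00 : β₀ ≠ 0 := by
    intro h
    rw [h, zero_pow hpp.ne_zero] at hβ₀
    exact hbO hβ₀.symm
  have hJβ0 : J β₀ ≠ 0 := by
    rw [Ne, EmbeddingLike.map_eq_zero_iff]
    exact hβ00
  set β : Om := β₀ / J β₀ with hβ
  have hβ0 : β ≠ 0 := div_ne_zero hβ00 hJβ0
  have hJb : J ((b : Cy (f * p ^ (n + 1))) : Om) = (J β₀) ^ p := by rw [← hβ₀, map_pow]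
  have hβp : β ^ p * J ((b : Cy (f * p ^ (n + 1))) : Om) = ((b : Cy (f * p ^ (n + 1))) : Om) := by
    rw [hJb, hβ, div_pow, div_mul_cancel₀ _ (pow_ne_zero _ hJβ0), hβ₀]
  have hJβ : J β = β⁻¹ := by
    rw [hβ, map_div₀, hJJx, inv_div]
  have hζ0 : ζ ≠ 0 := hζ.ne_zero hpp.ne_zero
  have hJζ : J ζ = ζ⁻¹ := hJrt p ζ hpp.pos hζ.pow_eq_one
  have hζM : ∀ σ ∈ MM p f, σ ζ = ζ := by
    intro σ hσ
    refine hσ ζ ⟨1, ?_⟩
    rw [pow_one, mul_comm, pow_mul, hζ.pow_eq_one, one_pow]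
  -- `J b` is in `K`
  have hJbK : J ((b : Cy (f * p ^ (n + 1))) : Om) ∈ Cy (f * p ^ (n + 1)) := Cy_map J (b : Cy (f * p ^ (n + 1))).2
  have hβpK : β ^ p ∈ Cy (f * p ^ (n + 1)) := by
    have h1 : β ^ p = ((b : Cy (f * p ^ (n + 1))) : Om) / J ((b : Cy (f * p ^ (n + 1))) : Om) := by
      rw [eq_div_iff]
      · exact hβp
      · rw [hJb]
        exact pow_ne_zero _ hJβ0
    rw [h1]
    exact (Cy (f * p ^ (n + 1))).div_mem (b : Cy (f * p ^ (n + 1))).2 hJbK
  -- the character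
  have hex : ∀ σ ∈ MM p f, ∃ i : ZMod p, σ β = ζ ^ i.val * β := by
    intro σ hσ
    have h1 : (σ β / β) ^ p = 1 := by
      rw [div_pow, ← map_pow, MM_Cy hσ hβpK, div_self (pow_ne_zero _ hβ0)]
    obtain ⟨i, hi, hi'⟩ := hζ.eq_pow_of_pow_eq_one h1
    refine ⟨(i : ZMod p), ?_⟩
    rw [ZMod.val_cast_of_lt hi, hi', div_mul_cancel₀ _ hβ0]
  choose! g₀ hg₀ using hex
  set g : Gal(Om/ℚ) → ZMod p := fun σ => if σ ∈ MM p f then g₀ σ else 0 with hg
  have hgM : ∀ σ ∈ MM p f, σ β = ζ ^ (g σ).val * β := by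
    intro σ hσ
    have h1 : g σ = g₀ σ := if_pos hσ
    rw [h1]
    exact hg₀ σ hσ
  have huniq : ∀ a c : ZMod p, ζ ^ a.val * β = ζ ^ c.val * β → a = c := by
    intro a c h
    exact zpow_inj hζ (mul_right_cancel₀ hβ0 h)
  have hgV : g ∈ VV p (LocO p) (MM p f) := by
    refine ⟨fun σ hσ => if_neg hσ, ?_, ?_, ?_⟩
    · intro σ hσ τ hτ
      apply huniq
      rw [← hgM _ ((MM p f).mul_mem hσ hτ), AlgEquiv.mul_apply, hgM τ hτ, map_mul, map_pow,
        hζM σ hσ, hgM σ hσ, zpow_add hζ]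
      ring
    · have : FiniteDimensional ℚ (IntermediateField.adjoin ℚ {β} : IntermediateField ℚ Om) :=
        IntermediateField.adjoin.finiteDimensional (Algebra.IsIntegral.isIntegral β)
      refine ⟨⟨(IntermediateField.adjoin ℚ {β} : IntermediateField ℚ Om).fixingSubgroup,
        IntermediateField.fixingSubgroup_isOpen _⟩, fun σ hσ hσO => ?_⟩
      apply huniq
      have h1 : σ β = β := (IntermediateField.mem_fixingSubgroup_iff _ _).1 hσO β
        (IntermediateField.subset_adjoin ℚ {β} rfl)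
      rw [← hgM σ hσ, h1, ZMod.val_zero, pow_zero, one_mul]
    · rintro _ ⟨P, hP, -, hpP, rfl⟩ σ hσP hσ
      -- units at `P`
      obtain ⟨x, -, u, hu, hux⟩ := unit_at (Cy (f * p ^ (n + 1))) p hpp.pos I b hb β₀ hβ00 hβ₀ P hP
      obtain ⟨x', -, u', hu', hux'⟩ := unit_at (Cy (f * p ^ (n + 1))) p hpp.pos
        (I.map (Jm (f * p ^ (n + 1)) J)) (Jm (f * p ^ (n + 1)) J b)
        (by rw [← Ideal.map_pow, hb, Ideal.map_span, Set.image_singleton]) (J β₀) hJβ0
        (by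
          rw [← hJb]
          rfl) P hP
      have hxK : σ ((x : Cy (f * p ^ (n + 1))) : Om) = ((x : Cy (f * p ^ (n + 1))) : Om) := MM_Cy hσ (x : Cy (f * p ^ (n + 1))).2
      have hxK' : σ ((x' : Cy (f * p ^ (n + 1))) : Om) = ((x' : Cy (f * p ^ (n + 1))) : Om) := MM_Cy hσ (x' : Cy (f * p ^ (n + 1))).2
      -- `ζ ^ g σ` in `ZZ`
      have hint : IsIntegral ℤ (ζ ^ (g σ).val) := by
        refine IsIntegral.of_pow hpp.pos ?_
        rw [← pow_mul, mul_comm, pow_mul, hζ.pow_eq_one, one_pow]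
        exact isIntegral_one
      set ω : ZZ := ⟨ζ ^ (g σ).val, hint⟩ with hω
      have hωp : ω ^ p = 1 := by
        apply Subtype.ext
        change (ζ ^ (g σ).val) ^ p = 1
        rw [← pow_mul, mul_comm, pow_mul, hζ.pow_eq_one, one_pow]
      -- the key identity: `σ(u') u = ω u' σ(u)`
      have key : (σ • u') * u = ω * (u' * (σ • u)) := by
        apply Subtype.ext
        change σ (u' : Om) * (u : Om) = ζ ^ (g σ).val * ((u' : Om) * σ (u : Om))
        have e1 : σ (u : Om) * σ β₀ = (u : Om) * β₀ := by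
          rw [← map_mul, hux, hxK]
        have e2 : σ (u' : Om) * σ (J β₀) = (u' : Om) * J β₀ := by
          rw [← map_mul, hux', hxK']
        have e3 : σ β₀ = ζ ^ (g σ).val * (β₀ / J β₀) * σ (J β₀) := by
          have h1 := hgM σ hσ
          rw [hβ, map_div₀, div_eq_iff] at h1
          · exact h1
          · rw [Ne, EmbeddingLike.map_eq_zero_iff]
            exact hJβ0
        have hsJ : σ (J β₀) ≠ 0 := by
          rw [Ne, EmbeddingLike.map_eq_zero_iff]
          exact hJβ0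
        have e4 : β₀ / J β₀ * J β₀ = β₀ := div_mul_cancel₀ _ hJβ0
        -- multiply by `β₀ * σ (J β₀)`
        apply mul_right_cancel₀ (mul_ne_zero hβ00 hsJ)
        calc σ (u' : Om) * (u : Om) * (β₀ * σ (J β₀))
            = (σ (u' : Om) * σ (J β₀)) * ((u : Om) * β₀) := by ring
          _ = ((u' : Om) * J β₀) * (σ (u : Om) * σ β₀) := by rw [e2, e1]
          _ = ((u' : Om) * J β₀) * (σ (u : Om) * (ζ ^ (g σ).val * (β₀ / J β₀) * σ (J β₀))) := by
              rw [e3]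
          _ = ζ ^ (g σ).val * ((u' : Om) * σ (u : Om)) * (β₀ / J β₀ * J β₀ * σ (J β₀)) := by ring
          _ = ζ ^ (g σ).val * ((u' : Om) * σ (u : Om)) * (β₀ * σ (J β₀)) := by rw [e4]
      have hm1 : σ • u - u ∈ P := hσP u
      have hm2 : σ • u' - u' ∈ P := hσP u'
      have hm3 : (ω - 1) * (u' * u) ∈ P := by
        have h1 : (ω - 1) * (u' * u) =
            (σ • u' - u') * u - ω * (u' * (σ • u - u)) := by
          have h2 : (σ • u' - u') * u = ω * (u' * (σ • u)) - u' * u := by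
            rw [sub_mul, key]
          rw [h2]
          ring
        rw [h1]
        exact P.sub_mem (P.mul_mem_right _ hm2) (P.mul_mem_left _ (P.mul_mem_left _ hm1))
      have hm4 : ω - 1 ∈ P := by
        rcases hP.mem_or_mem hm3 with h1 | h1
        · exact h1
        · rcases hP.mem_or_mem h1 with h2 | h2
          · exact absurd h2 hu'
          · exact absurd h2 hu
      have hω1 : ω = 1 := root_one hpP hωp hm4
      have h5 : ζ ^ (g σ).val = 1 := congrArg (fun z : ZZ => (z : Om)) hω1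
      have h6 : ζ ^ (g σ).val = ζ ^ (0 : ZMod p).val := by
        rw [h5, ZMod.val_zero, pow_zero]
      exact zpow_inj hζ h6
  have hgJ : ∀ τ ∈ MM p f, g (J * τ * J⁻¹) = g τ := by
    intro τ hτ
    apply huniq
    rw [← hgM _ (MM_conj hτ J), AlgEquiv.mul_apply, AlgEquiv.mul_apply, hJinv, hJβ, map_inv₀,
      hgM τ hτ, map_inv₀, map_mul, map_pow, hJζ, hJβ, mul_inv, inv_inv, inv_pow, inv_inv]
  obtain ⟨e, he, heM⟩ := hMExU p f hp2 hf J hJ g hgV hgJ
  refine ⟨e, he, b, β, hb, hb0, hβ0, hβp, hJβ, fun σ hσ => ?_⟩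
  rw [heM σ hσ]
  exact hgM σ hσ

end Pool.Agent.FW
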