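import Pool.Agent.Lib.FW.SpecM
import Pool.Agent.Lib.MuZ.Inst

/-!
# FW, part M, module MOdd: from odd unramified characters to odd class characters
-/

open scoped Pointwise nonZeroDivisors

noncomputable section

namespace Pool.Agent.FW

open Pool.Agent.MuZ NumberField IsDedekindDomain

namespace MOddAux

/-- `iO` is compatible with the action of `J`. -/
theorem iO_Jm (m : ℕ) (J : Gal(Om/ℚ)) (x : 𝓞 (Cy m)) :
    iO (Cy m) (Jm m J x) = J • iO (Cy m) x := rfl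

theorem comap_smul (m : ℕ) (J : Gal(Om/ℚ)) (P : Ideal ZZ) :
    (J • P).comap (iO (Cy m)) = (P.comap (iO (Cy m))).map (Jm m J) := by
  ext x
  rw [Ideal.mem_comap, Ideal.mem_map_of_equiv]
  constructor
  · intro h
    refine ⟨(Jm m J).symm x, ?_, (Jm m J).apply_symm_apply x⟩
    rw [Ideal.mem_comap]
    have h1 : iO (Cy m) x = J • iO (Cy m) ((Jm m J).symm x) := by
      rw [← iO_Jm, RingEquiv.apply_symm_apply]
    rw [h1] at h
    exact Ideal.smul_mem_pointwise_smul_iff.1 h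
  · rintro ⟨y, hy, rfl⟩
    rw [iO_Jm]
    exact Ideal.smul_mem_pointwise_smul _ _ _ hy

theorem ab_conj (m : ℕ) [NumberField (Cy m)] (J : Gal(Om/ℚ)) (P : Ideal ZZ)
    (v v' : HeightOneSpectrum (𝓞 (Cy m))) (hv : v'.asIdeal = v.asIdeal.map (Jm m J))
    (h : Ab (Cy m) P v) : Ab (Cy m) (J • P) v' := by
  obtain ⟨hP, hP0, hPv⟩ := h
  refine ⟨?_, ?_, ?_⟩
  · exact Ideal.IsPrime.smul J
  · intro h0
    apply hP0
    have h1 : J⁻¹ • (J • P) = J⁻¹ • (⊥ : Ideal ZZ) := by rw [h0]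
    rw [inv_smul_smul] at h1
    rw [h1, Ideal.smul_bot]
  · rw [comap_smul, ← hPv, hv]

theorem fr_conj (m : ℕ) [NumberField (Cy m)] (J : Gal(Om/ℚ)) (P : Ideal ZZ) (σ : Gal(Om/ℚ))
    (h : IsFr (Cy m) P σ) : IsFr (Cy m) (J • P) (J * σ * J⁻¹) := by
  obtain ⟨hσ, hx⟩ := h
  refine ⟨?_, ?_⟩
  · rw [IntermediateField.mem_fixingSubgroup_iff] at hσ ⊢
    intro z hz
    rw [AlgEquiv.mul_apply, AlgEquiv.mul_apply, hσ _ (Cy_map J⁻¹ hz)]
    exact J.apply_symm_apply z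
  · intro x
    have hc : Nat.card (𝓞 (Cy m) ⧸ (J • P).comap (iO (Cy m))) =
        Nat.card (𝓞 (Cy m) ⧸ P.comap (iO (Cy m))) :=
      (Nat.card_congr (Ideal.quotientEquiv (P.comap (iO (Cy m))) ((J • P).comap (iO (Cy m)))
        (Jm m J) (comap_smul m J P)).toEquiv).symm
    rw [hc]
    have h1 : (J * σ * J⁻¹) • x - x ^ Nat.card (𝓞 (Cy m) ⧸ P.comap (iO (Cy m))) =
        J • (σ • (J⁻¹ • x) - (J⁻¹ • x) ^ Nat.card (𝓞 (Cy m) ⧸ P.comap (iO (Cy m)))) := by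
      rw [smul_sub, smul_pow', smul_inv_smul, mul_smul, mul_smul]
    rw [h1]
    exact Ideal.smul_mem_pointwise_smul _ _ _ (hx _)

/-- The class character of an unramified character. -/
theorem exists_art (hREC : S_REC) (p : ℕ) [Fact p.Prime] (hp : p ≠ 2)
    (K : IntermediateField ℚ Om) [NumberField K] (e : Gal(Om/ℚ) → ZMod p)
    (he : e ∈ VV p Inr K.fixingSubgroup) :
    ∃ a : HeightOneSpectrum (𝓞 K) → ZMod p, ClCh p K a ∧ IsArt p K e 1 a := by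
  rcases eq_or_ne e 0 with h0 | h0
  · refine ⟨fun _ => 0, ?_, ?_⟩
    · intro x _
      simp
    · intro v P σ _ _ _
      rw [h0]
      rfl
  · obtain ⟨a, h1, _, h2⟩ := hREC p hp K e he h0
    exact ⟨a, h1, h2⟩

theorem one_notMem {K : IntermediateField ℚ Om} (v : HeightOneSpectrum (𝓞 K)) :
    ((1 : ℕ) : 𝓞 K) ∉ v.asIdeal := by
  rw [Nat.cast_one]
  exact (Ideal.ne_top_iff_one _).1 v.isPrime.ne_top

end MOddAux

open MOddAux in
theorem tMOdd : S_MOdd := by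
  intro hREC hLie hFrE hFrU hEJ p f n _ _ hp hf J hJ hfin
  obtain ⟨m, hm⟩ : ∃ m, m = f * p ^ (n + 1) := ⟨_, rfl⟩
  have hex : ∀ e : Gal(Om/ℚ) → ZMod p, ∃ a : HeightOneSpectrum (𝓞 (Cy (f * p ^ (n + 1)))) → ZMod p,
      e ∈ VV p Inr (Cy (f * p ^ (n + 1))).fixingSubgroup →
        ClCh p (Cy (f * p ^ (n + 1))) a ∧ IsArt p (Cy (f * p ^ (n + 1))) e 1 a := by
    intro e
    by_cases he : e ∈ VV p Inr (Cy (f * p ^ (n + 1))).fixingSubgroup
    · obtain ⟨a, ha⟩ := exists_art hREC p hp (Cy (f * p ^ (n + 1))) e he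
      exact ⟨a, fun _ => ha⟩
    · exact ⟨fun _ => 0, fun h => absurd h he⟩
  choose A hA using hex
  have hmaps : Set.MapsTo A (WW p f n J)
      (OddA p (Cy (f * p ^ (n + 1))) (Jm (f * p ^ (n + 1)) J)) := by
    rintro e ⟨he, hodd⟩
    refine ⟨(hA e he).1, ?_⟩
    intro v v' hv
    obtain ⟨P, hP⟩ := hLie.1 (Cy (f * p ^ (n + 1))) v
    obtain ⟨σ, hσ⟩ := hFrE (Cy (f * p ^ (n + 1))) P hP.1 hP.2.1
    have h1 := (hA e he).2 v P σ (one_notMem v) hP hσ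
    have h2 := (hA e he).2 v' (J • P) (J * σ * J⁻¹) (one_notMem v')
      (ab_conj _ J P v v' hv hP) (fr_conj _ J P σ hσ)
    rw [h1, h2]
    exact hodd σ hσ.1
  have hinj : Set.InjOn A (WW p f n J) := by
    rintro e ⟨he, _⟩ e' ⟨he', _⟩ hee
    by_contra hne
    have h0 : e - e' ≠ 0 := sub_ne_zero.2 hne
    obtain ⟨b, _, hb0, hb⟩ := hREC p hp (Cy (f * p ^ (n + 1))) (e - e') (Submodule.sub_mem _ he he') h0
    apply hb0
    funext v
    obtain ⟨P, hP⟩ := hLie.1 (Cy (f * p ^ (n + 1))) v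
    obtain ⟨σ, hσ⟩ := hFrE (Cy (f * p ^ (n + 1))) P hP.1 hP.2.1
    rw [hb v P σ (one_notMem v) hP hσ, Pi.sub_apply, ← (hA e he).2 v P σ (one_notMem v) hP hσ,
      ← (hA e' he').2 v P σ (one_notMem v) hP hσ, hee, sub_self]
    rfl
  exact ⟨Set.Finite.of_injOn hmaps hinj hfin, Set.ncard_le_ncard_of_injOn A hmaps hinj hfin⟩

end Pool.Agent.FW
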