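import Pool.Agent.Lib.FW.SpecM
import Pool.Agent.Lib.MuZ.FixV

/-!
# Smoothness for `M` (`S_MSm`)
-/

open scoped Pointwise

noncomputable section

namespace Pool.Agent.FW

open Pool.Agent.MuZ

namespace MSmAux

/-- `M` is normal. -/
theorem MM_conj {p f : ℕ} (σ : Gal(Om/ℚ)) {u : Gal(Om/ℚ)} (hu : u ∈ MM p f) :
    σ * u * σ⁻¹ ∈ MM p f := by
  have key : ∀ z : Om, σ (σ⁻¹ z) = z := fun z => σ.apply_symm_apply z
  intro z hz
  rw [AlgEquiv.mul_apply, AlgEquiv.mul_apply, hu _ (hz.map σ⁻¹), key]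

theorem mem_Cy_fix (m : ℕ) (ν : Gal(Om/ℚ)) :
    ν ∈ (Cy m).fixingSubgroup ↔ ∀ z : Om, z ^ m = 1 → ν z = z := by
  rw [IntermediateField.mem_fixingSubgroup_iff]
  refine ⟨fun h z hz => h z (IntermediateField.subset_adjoin ℚ _ hz), fun h => ?_⟩
  have h1 : Cy m ≤ IntermediateField.fixedField (Subgroup.zpowers ν) := by
    unfold Cy
    rw [IntermediateField.adjoin_le_iff]
    intro z hz
    rw [SetLike.mem_coe, IntermediateField.mem_fixedField_iff]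
    have h2 : Subgroup.zpowers ν ≤ MulAction.stabilizer Gal(Om/ℚ) z := by
      rw [Subgroup.zpowers_le]
      exact h z hz
    intro τ hτ
    exact h2 hτ
  intro x hx
  have h2 := h1 hx
  rw [IntermediateField.mem_fixedField_iff] at h2
  exact h2 ν (Subgroup.mem_zpowers ν)

end MSmAux

open MSmAux

theorem tMSm : S_MSm := by
  intro p f _ g hg
  obtain ⟨h1, h2, ⟨O0, h3⟩, -⟩ := hg
  obtain ⟨O, hOn, hO⟩ := FixVAux.exists_normal O0
  have hOn' : (O : Subgroup Gal(Om/ℚ)).Normal := hOn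
  obtain ⟨S, hS⟩ : ∃ S : Subgroup Gal(Om/ℚ), S = MM p f ⊔ (O : Subgroup Gal(Om/ℚ)) := ⟨_, rfl⟩
  have hSo : IsOpen (S : Set Gal(Om/ℚ)) :=
    Subgroup.isOpen_mono (H₁ := (O : Subgroup Gal(Om/ℚ))) (by rw [hS]; exact le_sup_right) O.isOpen
  have hex : ∃ k : ℕ, ∀ ν : Gal(Om/ℚ), (∀ z : Om, z ^ (f * p ^ k) = 1 → ν z = z) → ν ∈ S := by
    by_contra hcon
    push Not at hcon
    let C : ℕ → Set Gal(Om/ℚ) := fun k => ((Cy (f * p ^ k)).fixingSubgroup : Set Gal(Om/ℚ)) ∩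
      (S : Set Gal(Om/ℚ))ᶜ
    have hCc : ∀ k, IsClosed (C k) := fun k =>
      (InfiniteGalois.fixingSubgroup_isClosed (Cy (f * p ^ k))).inter hSo.isClosed_compl
    have hne : (⋂ k, C k).Nonempty := by
      refine IsCompact.nonempty_iInter_of_sequence_nonempty_isCompact_isClosed C ?_ ?_
        (hCc 0).isCompact hCc
      · intro k x hx
        refine ⟨?_, hx.2⟩
        have h4 : x ∈ (Cy (f * p ^ (k + 1))).fixingSubgroup := hx.1
        rw [mem_Cy_fix] at h4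
        change x ∈ (Cy (f * p ^ k)).fixingSubgroup
        rw [mem_Cy_fix]
        intro z hz
        refine h4 z ?_
        rw [pow_succ, ← mul_assoc, pow_mul, hz, one_pow]
      · intro k
        obtain ⟨ν, hν, hνS⟩ := hcon k
        exact ⟨ν, (mem_Cy_fix _ ν).2 hν, hνS⟩
    obtain ⟨ν, hν⟩ := hne
    rw [Set.mem_iInter] at hν
    have h4 : ν ∈ MM p f := by
      rintro z ⟨n, hn⟩
      exact (mem_Cy_fix _ ν).1 (hν n).1 z hn
    exact (hν 0).2 (by rw [hS]; exact Subgroup.mem_sup_left h4)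
  obtain ⟨k, hk⟩ := hex
  -- the statement for `ν⁻¹ τ ν`
  have main : ∀ ν : Gal(Om/ℚ), (∀ z : Om, z ^ (f * p ^ k) = 1 → ν z = z) →
      ∀ τ ∈ MM p f, g (ν⁻¹ * τ * ν) = g τ := by
    intro ν hν τ hτ
    have h4 := hk ν hν
    rw [hS, Subgroup.mem_sup_of_normal_right] at h4
    obtain ⟨μ, hμ, o, ho, rfl⟩ := h4
    have h5 : (μ * o)⁻¹ * τ * (μ * o) = o⁻¹ * (μ⁻¹ * τ * μ) * o := by group
    rw [h5]
    have h6 : g (o⁻¹ * (μ⁻¹ * τ * μ) * o) = g (μ⁻¹ * τ * μ) :=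
      FixVAux.conj_small (Y := ⊤) (N := MM p f) (O := (O : Subgroup Gal(Om/ℚ))) hOn' h2
        (fun x hx hxO => h3 x hx (hO x hxO)) (fun y _ n hn => MM_conj y hn) (Subgroup.mem_top o) ho
        (mul_mem (mul_mem (inv_mem hμ) hτ) hμ)
    have h7 : g μ⁻¹ = - g μ := by
      have h8 := h2 μ hμ μ⁻¹ (inv_mem hμ)
      rw [mul_inv_cancel, FixVAux.one_of_add h2] at h8
      exact (neg_eq_of_add_eq_zero_right h8.symm).symm
    rw [h6, h2 _ (mul_mem (inv_mem hμ) hτ) _ hμ, h2 _ (inv_mem hμ) _ hτ, h7]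
    ring
  refine ⟨k, fun ν hν τ hτ => ?_⟩
  have h9 : ∀ z : Om, z ^ (f * p ^ k) = 1 → ν⁻¹ z = z := by
    intro z hz
    have h10 : ν⁻¹ (ν z) = z := by
      rw [← AlgEquiv.mul_apply, inv_mul_cancel, AlgEquiv.one_apply]
    rw [hν z hz] at h10
    exact h10
  have h11 := main ν⁻¹ h9 τ hτ
  rw [inv_inv] at h11
  exact h11

end Pool.Agent.FW
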