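import Pool.Agent.Lib.FW.SpecM
import Pool.Agent.Lib.MuZ.QZ

/-!
# Part M: Kummer elements in the cyclotomic tower
-/

open scoped Pointwise nonZeroDivisors

noncomputable section

namespace Pool.Agent.FW

open Pool.Agent.MuZ NumberField IsDedekindDomain

private theorem mp_u (p : ℕ) (hp : p.Prime) (hp2 : p ≠ 2) (n : ℕ) :
    ∃ v : ℕ, ¬ p ∣ v ∧ (1 + p) ^ p ^ n = 1 + p ^ (n + 1) * v := by
  have h1 : (((1 + p) ^ p ^ n : ℕ) : ZMod (p ^ (n + 1))) = ((1 : ℕ) : ZMod (p ^ (n + 1))) := by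
    have h := pow_orderOf_eq_one (1 + p : ZMod (p ^ (n + 1)))
    rw [ZMod.orderOf_one_add_prime hp hp2 n] at h
    push_cast
    exact h
  have h2 : p ^ (n + 1) ∣ (1 + p) ^ p ^ n - 1 :=
    (Nat.modEq_iff_dvd' (Nat.one_le_pow _ _ (by omega))).1
      ((ZMod.natCast_eq_natCast_iff _ _ _).1 h1.symm)
  obtain ⟨v, hv⟩ := h2
  have hge : 1 ≤ (1 + p) ^ p ^ n := Nat.one_le_pow _ _ (by omega)
  refine ⟨v, ?_, by omega⟩
  rintro ⟨w, rfl⟩
  have h3 : p ^ (n + 2) ∣ (1 + p) ^ p ^ n - 1 := ⟨w, by rw [hv]; ring⟩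
  have h4 : (((1 + p) ^ p ^ n : ℕ) : ZMod (p ^ (n + 2))) = ((1 : ℕ) : ZMod (p ^ (n + 2))) :=
    ((ZMod.natCast_eq_natCast_iff _ _ _).2 ((Nat.modEq_iff_dvd' hge).2 h3)).symm
  push_cast at h4
  have h5 : p ^ (n + 1) ∣ p ^ n := by
    rw [← ZMod.orderOf_one_add_prime hp hp2 (n + 1)]
    exact orderOf_dvd_of_pow_eq_one h4
  have h6 := Nat.le_of_dvd (pow_pos hp.pos n) h5
  exact absurd h6 (not_le.2 (Nat.pow_lt_pow_right hp.one_lt (Nat.lt_succ_self n)))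

private theorem mp_split (f q : ℕ) (hfq : f.Coprime q) (hf : 0 < f) (hq : 0 < q) (z : Om)
    (hz : z ^ (f * q) = 1) : ∃ z₁ z₂ : Om, z₁ ^ f = 1 ∧ z₂ ^ q = 1 ∧ z = z₁ * z₂ := by
  have hz0 : z ≠ 0 := by
    rintro rfl
    rw [zero_pow (Nat.mul_pos hf hq).ne'] at hz
    exact zero_ne_one hz
  have hb : ((1 : ℕ) : ℤ) = f * Nat.gcdA f q + q * Nat.gcdB f q := by
    rw [← Nat.gcd_eq_gcd_ab]
    exact congrArg _ (Eq.symm (show Nat.gcd f q = 1 from hfq))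
  have hz' : z ^ ((f : ℤ) * q) = 1 := by
    rw [← Nat.cast_mul, zpow_natCast, hz]
  refine ⟨z ^ ((q : ℤ) * Nat.gcdB f q), z ^ ((f : ℤ) * Nat.gcdA f q), ?_, ?_, ?_⟩
  · rw [← zpow_natCast, ← zpow_mul, show (q : ℤ) * Nat.gcdB f q * (f : ℕ) =
      (f : ℤ) * q * Nat.gcdB f q by ring, zpow_mul, hz', one_zpow]
  · rw [← zpow_natCast, ← zpow_mul, show (f : ℤ) * Nat.gcdA f q * (q : ℕ) =
      (f : ℤ) * q * Nat.gcdA f q by ring, zpow_mul, hz', one_zpow]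
  · rw [← zpow_add₀ hz0, add_comm, ← hb]
    norm_num

/-- An automorphism which agrees with another one on the `f`-th and the `q`-th roots of unity. -/
private theorem mp_agree (f q : ℕ) (hfq : f.Coprime q) (hf : 0 < f) (hq : 0 < q)
    (σ τ : Gal(Om/ℚ)) (h1 : ∀ z : Om, z ^ f = 1 → σ z = τ z)
    (h2 : ∀ z : Om, z ^ q = 1 → σ z = τ z) (z : Om) (hz : z ^ (f * q) = 1) : σ z = τ z := by
  obtain ⟨z₁, z₂, hz1, hz2, rfl⟩ := mp_split f q hfq hf hq z hz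
  rw [map_mul, map_mul, h1 z₁ hz1, h2 z₂ hz2]

private theorem mp_iter (γ : Gal(Om/ℚ)) (z : Om) (h : γ z = z) (j : ℕ) : (γ ^ j) z = z := by
  induction j with
  | zero => rfl
  | succ j ih => rw [pow_succ, AlgEquiv.mul_apply, h, ih]

private theorem mp_powmod {q c d : ℕ} (h : c ≡ d [MOD q]) (z : Om) (hz : z ^ q = 1) :
    z ^ c = z ^ d := by
  have h' : c % q = d % q := h
  rw [← Nat.mod_add_div c q, ← Nat.mod_add_div d q, pow_add, pow_add, pow_mul, pow_mul, hz,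
    one_pow, one_pow, h']

theorem tMPow : S_MPow := by
  intro hE hL p f n hpf hp2 hf hpf' k hk hkp
  have hp : p.Prime := hpf.out
  obtain ⟨-, hE2, -, hE4, -, -, -, hE8⟩ := hE
  by_cases hk0 : k = 0
  · exact ⟨0, zero_mem _, 1, 1, one_pos, one_pow 1, by rw [hk0, zero_mul]⟩
  obtain ⟨γ, hγ1, hγ2⟩ := (hL p f hf hpf').2
  have hcop : ∀ m : ℕ, f.Coprime (p ^ m) := fun m =>
    (Nat.Coprime.pow_left m ((Nat.Prime.coprime_iff_not_dvd hp).2 hpf')).symm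
  obtain ⟨v, hv, hc⟩ := mp_u p hp hp2 n
  have hA : ∀ m : ℕ, QZ.Acts p m (γ ^ p ^ n) ((1 + p) ^ p ^ n) := fun m =>
    QZ.Acts.pow (fun z hz => hγ2 z m hz) _
  have hB : ∀ (z : Om), z ^ f = 1 → (γ ^ p ^ n) z = z := fun z hz =>
    mp_iter γ z (hγ1 z (by rw [pow_mul, hz, one_pow])) _
  have hcmod : (1 + p) ^ p ^ n ≡ 1 [MOD p ^ (n + 1)] := by
    rw [hc]
    exact (Nat.modEq_iff_dvd' (by omega)).2 ⟨v, by omega⟩ |>.symm
  have hfix : γ ^ p ^ n ∈ (Cy (f * p ^ (n + 1))).fixingSubgroup := by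
    rw [hE2]
    intro z hz
    exact mp_agree f (p ^ (n + 1)) (hcop _) hf (pow_pos hp.pos _) (γ ^ p ^ n) 1
      (fun z hz => hB z hz) (fun z hz => QZ.Acts.fix (hA (n + 1)) hcmod z hz) z hz
  set γ' := γ ^ p ^ n with hγ'
  -- the ratio
  have hkp' : γ' (k ^ p) = k ^ p := (IntermediateField.mem_fixingSubgroup_iff _ _).1 hfix _ hkp
  have hω : (γ' k / k) ^ p = 1 := by
    rw [div_pow, ← map_pow, hkp', div_self (pow_ne_zero p hk0)]
  have hne : NeZero (p ^ (n + 2)) := ⟨(pow_pos hp.pos _).ne'⟩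
  obtain ⟨η, hη⟩ := HasEnoughRootsOfUnity.exists_primitiveRoot Om (p ^ (n + 2))
  have hη0 : η ≠ 0 := hη.ne_zero (pow_pos hp.pos _).ne'
  have hω0 : IsPrimitiveRoot (η ^ (p ^ (n + 1) * v)) p := by
    rw [pow_mul]
    refine (hη.pow (pow_pos hp.pos _) (by rw [← pow_succ])).pow_of_coprime v ?_
    exact ((Nat.Prime.coprime_iff_not_dvd hp).2 hv).symm
  have hNp : NeZero p := ⟨hp.ne_zero⟩
  obtain ⟨i, -, hi⟩ := hω0.eq_pow_of_pow_eq_one hω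
  have hγη : γ' η = η ^ (p ^ (n + 1) * v) * η := by
    rw [hA (n + 2) η hη.pow_eq_one, hc, add_comm, pow_succ]
  set k' : Om := k / η ^ i with hk'
  have hγk' : γ' k' = k' := by
    have h1 : γ' k = (η ^ (p ^ (n + 1) * v)) ^ i * k := by
      rw [hi, div_mul_cancel₀ _ hk0]
    rw [hk', map_div₀, map_pow, h1, hγη, mul_pow,
      mul_div_mul_left _ _ (pow_ne_zero _ (pow_ne_zero _ hη0))]
  have hk'M : ∀ σ ∈ MM p f, σ k' = k' := by
    intro σ hσ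
    have h1 : σ η = η := hσ η ⟨n + 2, by rw [mul_comm, pow_mul, hη.pow_eq_one, one_pow]⟩
    rw [hk', map_div₀, map_pow, h1, hk σ hσ]
  have hηi : (η ^ i) ^ p ^ (n + 2) = 1 := by
    rw [← pow_mul, mul_comm, pow_mul, hη.pow_eq_one, one_pow]
  refine ⟨k', ?_, η ^ i, p ^ (n + 2), pow_pos hp.pos _, hηi,
    (div_mul_cancel₀ _ (pow_ne_zero i hη0)).symm⟩
  obtain ⟨N₀, hN₀⟩ := hE8 p f k' hk'M
  obtain ⟨N, hN1, hN2⟩ : ∃ N, N₀ ≤ N ∧ n ≤ N :=
    ⟨max N₀ n, le_max_left _ _, le_max_right _ _⟩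
  have hkN : k' ∈ Cy (f * p ^ (N + 1)) :=
    hE4 _ _ (Nat.mul_dvd_mul_left f (pow_dvd_pow p (by omega))) hN₀
  rw [← InfiniteGalois.fixedField_fixingSubgroup (Cy (f * p ^ (n + 1))),
    IntermediateField.mem_fixedField_iff]
  intro ν hν
  have hν' := (hE2 (f * p ^ (n + 1)) ν).1 hν
  obtain ⟨c, hcp, hcA⟩ := QZ.exists_acts p hp (N + 1) ν
  have hc1 : 1 ≤ c := by
    rcases Nat.eq_zero_or_pos c with h | h
    · rw [h, Nat.coprime_zero_left] at hcp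
      exact absurd hcp hp.one_lt.ne'
    · exact h
  have hcd : (p : ℤ) ^ (n + 1) ∣ (c : ℤ) - 1 := by
    have hne' : NeZero (p ^ (n + 1)) := ⟨(pow_pos hp.pos _).ne'⟩
    obtain ⟨ζ, hζ⟩ := HasEnoughRootsOfUnity.exists_primitiveRoot Om (p ^ (n + 1))
    have h1 : ζ ^ c = ζ := by
      rw [← (hcA.mono (by omega : n + 1 ≤ N + 1)) ζ hζ.pow_eq_one]
      exact hν' ζ (by rw [mul_comm, pow_mul, hζ.pow_eq_one, one_pow])
    have h2 : ζ ^ (c - 1) = 1 := by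
      have h3 : ζ ^ (c - 1) * ζ = 1 * ζ := by
        rw [← pow_succ, Nat.sub_add_cancel hc1, h1, one_mul]
      exact mul_right_cancel₀ (hζ.ne_zero (pow_pos hp.pos _).ne') h3
    have h4 := (hζ.pow_eq_one_iff_dvd _).1 h2
    have h5 : ((p ^ (n + 1) : ℕ) : ℤ) ∣ ((c - 1 : ℕ) : ℤ) := Int.natCast_dvd_natCast.2 h4
    rw [Nat.cast_sub hc1] at h5
    push_cast at h5
    exact h5
  have hv' : ¬ (p : ℤ) ∣ (v : ℤ) := fun h => hv (Int.natCast_dvd_natCast.1 h)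
  have hp3 : 3 ≤ p := lt_of_le_of_ne hp.two_le (Ne.symm hp2)
  obtain ⟨j, hj⟩ := QZ.key p hp (n + 1) (by omega) (by nlinarith) (v : ℤ)
    (1 + (p : ℤ) ^ (n + 1) * v) hv' rfl (c : ℤ) hcd (N + 1)
  have hmod : c ≡ ((1 + p) ^ p ^ n) ^ j [MOD p ^ (N + 1)] := by
    rw [hc]
    refine (Nat.modEq_iff_dvd.2 ?_).symm
    push_cast
    exact hj
  have hag : ∀ z : Om, z ^ (f * p ^ (N + 1)) = 1 → ν z = (γ' ^ j) z := by
    refine fun z hz => mp_agree f (p ^ (N + 1)) (hcop _) hf (pow_pos hp.pos _) ν (γ' ^ j)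
      (fun z hz => ?_) (fun z hz => ?_) z hz
    · rw [mp_iter γ' z (hB z hz) j]
      exact hν' z (by rw [pow_mul, hz, one_pow])
    · rw [hcA z hz, QZ.Acts.pow (hA (N + 1)) j z hz]
      exact mp_powmod hmod z hz
  have hρ : (γ' ^ j)⁻¹ * ν ∈ (Cy (f * p ^ (N + 1))).fixingSubgroup := by
    rw [hE2]
    intro z hz
    rw [AlgEquiv.mul_apply, hag z hz, ← AlgEquiv.mul_apply, inv_mul_cancel, AlgEquiv.one_apply]
  have h1 := (IntermediateField.mem_fixingSubgroup_iff _ _).1 hρ k' hkN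
  have h2 : ν k' = (γ' ^ j) k' := by
    have h3 := congrArg (γ' ^ j) h1
    rw [← AlgEquiv.mul_apply, mul_inv_cancel_left] at h3
    exact h3
  change ν k' = k'
  rw [h2, mp_iter γ' k' hγk' j]

end Pool.Agent.FW
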